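import Pool.Agent.W386.Conv

set_option autoImplicit false
set_option linter.unusedVariables false

/-!
# Fibre products
-/

namespace Pool.Agent.W386

open Function

section

variable {Γ₁ Γ₂ Q : Type} [Group Γ₁] [Group Γ₂] [Group Q] (π₁ : Γ₁ →* Q) (π₂ : Γ₂ →* Q)

/-- the fibre product -/
abbrev FibP : Subgroup (Γ₁ × Γ₂) :=
  MonoidHom.eqLocus (π₁.comp (MonoidHom.fst Γ₁ Γ₂)) (π₂.comp (MonoidHom.snd Γ₁ Γ₂))

theorem mem_fibP (x : Γ₁ × Γ₂) : x ∈ FibP π₁ π₂ ↔ π₁ x.1 = π₂ x.2 := Iff.rfl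

/-- the inclusion of the kernel of `π₁` -/
def fibJ : π₁.ker →* FibP π₁ π₂ where
  toFun := fun n => ⟨(n.1, 1), by
    rw [mem_fibP]
    change π₁ n.1 = π₂ 1
    rw [map_one]
    exact n.2⟩
  map_one' := rfl
  map_mul' := fun x y => by
    apply Subtype.ext
    apply Prod.ext
    · rfl
    · exact (mul_one (1 : Γ₂)).symm

/-- first projection -/
def fibFst : FibP π₁ π₂ →* Γ₁ := (MonoidHom.fst Γ₁ Γ₂).comp (FibP π₁ π₂).subtype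

/-- second projection -/
def fibSnd : FibP π₁ π₂ →* Γ₂ := (MonoidHom.snd Γ₁ Γ₂).comp (FibP π₁ π₂).subtype

theorem fibFst_surj (h₂ : Surjective π₂) : Surjective (fibFst π₁ π₂) := by
  intro g
  obtain ⟨g', hg'⟩ := h₂ (π₁ g)
  exact ⟨⟨(g, g'), hg'.symm⟩, rfl⟩

theorem fibSnd_surj (h₁ : Surjective π₁) : Surjective (fibSnd π₁ π₂) := by
  intro g
  obtain ⟨g', hg'⟩ := h₁ (π₂ g)
  exact ⟨⟨(g', g), hg'⟩, rfl⟩

theorem fibSnd_ker : (fibSnd π₁ π₂).ker = (fibJ π₁ π₂).range := by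
  ext x
  constructor
  · intro hx
    have h1 : x.1.2 = 1 := hx
    have h2 : π₁ x.1.1 = π₂ x.1.2 := x.2
    rw [h1, map_one] at h2
    refine ⟨⟨x.1.1, h2⟩, ?_⟩
    apply Subtype.ext
    apply Prod.ext
    · rfl
    · exact h1.symm
  · rintro ⟨n, rfl⟩
    rfl

theorem fibJ_inj : Injective (fibJ π₁ π₂) := by
  intro x y h
  apply Subtype.ext
  exact congrArg (fun z => z.1.1) h

theorem fibFst_fibJ : (fibFst π₁ π₂).comp (fibJ π₁ π₂) = π₁.ker.subtype := rfl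

theorem fp_fib (h₁ : Surjective π₁) (hN : Group.IsFinitelyPresented π₁.ker)
    (hΓ : Group.IsFinitelyPresented Γ₂) : Group.IsFinitelyPresented (FibP π₁ π₂) :=
  fp_ext (fibJ π₁ π₂) (fibJ_inj π₁ π₂) (fibSnd π₁ π₂) (fibSnd_surj π₁ π₂ h₁)
    (fibSnd_ker π₁ π₂) hN hΓ

theorem fps_fib (h₁ : Surjective π₁) (h₂ : Surjective π₂)
    (hP : Group.IsFinitelyPresented (FibP π₁ π₂)) (hG : Group.IsFinitelyPresented Γ₁) (n : ℕ)
    (hN' : FPs (ZG π₁.ker) (n + 1) (Triv π₁.ker)) (h₁' : FPs (ZG Γ₁) (n + 2) (Triv Γ₁))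
    (h₂' : FPs (ZG Γ₂) (n + 2) (Triv Γ₂)) (hQ' : FPs (ZG Q) (n + 3) (Triv Q)) :
    FPs (ZG (FibP π₁ π₂)) (n + 2) (Triv (FibP π₁ π₂)) := by
  have hj : Injective ((fibFst π₁ π₂).comp (fibJ π₁ π₂)) := by
    rw [fibFst_fibJ]
    exact Subtype.val_injective
  have hc : π₁.ker = ((fibFst π₁ π₂).comp (fibJ π₁ π₂)).range := by
    rw [fibFst_fibJ, Subgroup.range_subtype]
  exact main_fp (fibJ π₁ π₂) (fibFst π₁ π₂) (fibSnd π₁ π₂) π₁ (fibFst_surj π₁ π₂ h₂)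
    (fibSnd_surj π₁ π₂ h₁) h₁ hj (fibSnd_ker π₁ π₂) hc (fp_fg hP)
    (ker_ifng _ (fibFst_surj π₁ π₂ h₂) (fp_fg hP) hG) n hN' h₁' hQ' h₂'

end

end Pool.Agent.W386
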