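import Mathlib

set_option autoImplicit false
set_option linter.unusedVariables false

/-!
# Finite presentations of extensions
-/

namespace Pool.Agent.W386

open Function

theorem fp_fg {P : Type} [Group P] (hP : Group.IsFinitelyPresented P) : Group.FG P := by
  obtain ⟨n, φ, hφ, _⟩ := hP.out
  exact Group.fg_of_surjective hφ

/-- the kernel of a surjection from a finitely generated group to a finitely presented one is
finitely normally generated -/
theorem ker_ifng {P G : Type} [Group P] [Group G] (π : P →* G) (hπ : Surjective π)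
    (hP : Group.FG P) (hG : Group.IsFinitelyPresented G) : π.ker.IsFinitelyNormallyGenerated := by
  obtain ⟨m, φ, hφ, S, hSf, hS⟩ := hG.out
  obtain ⟨T, hT⟩ := hP.out
  choose ψ₀ hψ₀ using fun i : Fin m => hπ (φ (FreeGroup.of i))
  let ψ : FreeGroup (Fin m) →* P := FreeGroup.lift ψ₀
  have hψ : ∀ w, π (ψ w) = φ w := by
    intro w
    have : π.comp ψ = φ := by
      ext i
      simp [ψ, hψ₀]
    rw [← this]
    rfl
  choose w hw using fun t : P => hφ (π t)
  let U : Set P := ψ '' S ∪ (fun t => t * (ψ (w t))⁻¹) '' (T : Set P)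
  refine ⟨U, (hSf.image _).union (T.finite_toSet.image _), ?_⟩
  have hle : Subgroup.normalClosure U ≤ π.ker := by
    apply Subgroup.normalClosure_le_normal
    rintro _ (⟨s, hs, rfl⟩ | ⟨t, ht, rfl⟩)
    · rw [SetLike.mem_coe, MonoidHom.mem_ker, hψ]
      have : s ∈ φ.ker := by rw [← hS]; exact Subgroup.subset_normalClosure hs
      exact this
    · rw [SetLike.mem_coe, MonoidHom.mem_ker, map_mul, map_inv, hψ, hw, mul_inv_cancel]
  apply le_antisymm hle
  intro p hp
  set q := QuotientGroup.mk' (Subgroup.normalClosure U) with hq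
  have hqU : ∀ u ∈ U, q u = 1 := by
    intro u hu
    rw [hq, ← MonoidHom.mem_ker, QuotientGroup.ker_mk']
    exact Subgroup.subset_normalClosure hu
  have h1 : ∀ p : P, ∃ v, q p = q (ψ v) := by
    intro p
    have hp : p ∈ Subgroup.closure (T : Set P) := by rw [hT]; trivial
    induction hp using Subgroup.closure_induction with
    | mem x hx =>
      refine ⟨w x, ?_⟩
      have := hqU _ (Or.inr ⟨x, hx, rfl⟩)
      rw [map_mul, map_inv, mul_inv_eq_one] at this
      exact this
    | one => exact ⟨1, by simp⟩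
    | mul x y _ _ hx hy =>
      obtain ⟨v, hv⟩ := hx
      obtain ⟨v', hv'⟩ := hy
      exact ⟨v * v', by simp [hv, hv']⟩
    | inv x _ hx =>
      obtain ⟨v, hv⟩ := hx
      exact ⟨v⁻¹, by simp [hv]⟩
  obtain ⟨v, hv⟩ := h1 p
  have h2 : p * (ψ v)⁻¹ ∈ Subgroup.normalClosure U := by
    rw [← QuotientGroup.ker_mk' (Subgroup.normalClosure U), MonoidHom.mem_ker, map_mul, map_inv,
      mul_inv_eq_one]
    exact hv
  have h3 : φ v = 1 := by
    have := hle h2
    rw [MonoidHom.mem_ker, map_mul, map_inv, hψ, (show π p = 1 from hp), one_mul,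
      inv_eq_one] at this
    exact this
  have h4 : v ∈ Subgroup.normalClosure S := by rw [hS]; exact h3
  have h5 : ψ v ∈ Subgroup.normalClosure U := by
    have : Subgroup.normalClosure S ≤ (Subgroup.normalClosure U).comap ψ := by
      apply Subgroup.normalClosure_le_normal
      intro s hs
      exact Subgroup.subset_normalClosure (Or.inl ⟨s, hs, rfl⟩)
    exact this h4
  have := mul_mem h2 h5
  simpa using this

theorem fp_ext_aux {N P Γ : Type} [Group N] [Group P] [Group Γ] (j : N →* P) (hj : Injective j)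
    (ρ : P →* Γ) (hρ : Surjective ρ) (hker : ρ.ker = j.range)
    (hN : Group.IsFinitelyPresented N) (hΓ : Group.IsFinitelyPresented Γ)
    (hcop : ∀ (m : ℕ) (ψ : FreeGroup (Fin m) →* P), ∃ (H : Type) (_ : Group H) (a₀ : N →* H)
      (f₀ : FreeGroup (Fin m) →* H) (Θ : H →* P), (∀ n, Θ (a₀ n) = j n) ∧ (∀ w, Θ (f₀ w) = ψ w) ∧
      Group.IsFinitelyPresented H ∧
      ∀ motive : H → Prop, (∀ n, motive (a₀ n)) → (∀ w, motive (f₀ w)) →
        (∀ x y, motive x → motive y → motive (x * y)) → ∀ h, motive h) :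
    Group.IsFinitelyPresented P := by
  obtain ⟨m, φ, hφ, S, hSf, hS⟩ := hΓ.out
  obtain ⟨X, hX⟩ := (fp_fg hN).out
  choose ψ₀ hψ₀ using fun i : Fin m => hρ (φ (FreeGroup.of i))
  let ψ : FreeGroup (Fin m) →* P := FreeGroup.lift ψ₀
  have hψ : ∀ w, ρ (ψ w) = φ w := by
    intro w
    have : ρ.comp ψ = φ := by
      ext i
      simp [ψ, hψ₀]
    rw [← this]
    rfl
  have hconj : ∀ (p : P) (n : N), ∃ n', j n' = p * j n * p⁻¹ := by
    intro p n
    have h1 : p * j n * p⁻¹ ∈ ρ.ker := ρ.normal_ker.conj_mem _ (by rw [hker]; exact ⟨n, rfl⟩) _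
    rw [hker] at h1
    exact h1
  choose c hc using hconj
  have hd : ∀ w : FreeGroup (Fin m), ∃ n : N, φ w = 1 → j n = ψ w := by
    intro w
    by_cases h : φ w = 1
    · have : ψ w ∈ ρ.ker := by rw [MonoidHom.mem_ker, hψ, h]
      rw [hker] at this
      obtain ⟨n, hn⟩ := this
      exact ⟨n, fun _ => hn⟩
    · exact ⟨1, fun h' => absurd h' h⟩
  choose d hd using hd
  obtain ⟨H, _, a₀, f₀, Θ, hΘa, hΘf, hHfp, hind⟩ := hcop m ψ
  have hΘ : Surjective Θ := by
    intro p
    obtain ⟨w, hw⟩ := hφ (ρ p)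
    have h1 : p * (ψ w)⁻¹ ∈ ρ.ker := by
      rw [MonoidHom.mem_ker, map_mul, map_inv, hψ, hw, mul_inv_cancel]
    rw [hker] at h1
    obtain ⟨n, hn⟩ := h1
    refine ⟨a₀ n * f₀ w, ?_⟩
    rw [map_mul, hΘa, hΘf, hn, inv_mul_cancel_right]
  -- relations
  let Z : Set (FreeGroup (Fin m)) :=
    Set.range FreeGroup.of ∪ Set.range (fun i => (FreeGroup.of i)⁻¹)
  have hZf : Z.Finite := (Set.finite_range _).union (Set.finite_range _)
  let r₁ : FreeGroup (Fin m) × N → H := fun q => f₀ q.1 * a₀ q.2 * (f₀ q.1)⁻¹ * (a₀ (c (ψ q.1) q.2))⁻¹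
  let r₂ : FreeGroup (Fin m) → H := fun s => f₀ s * (a₀ (d s))⁻¹
  let U : Set H := r₁ '' (Z ×ˢ (X : Set N)) ∪ r₂ '' S
  have hUf : U.Finite := ((hZf.prod X.finite_toSet).image _).union (hSf.image _)
  refine Group.IsFinitelyPresented.of_surjective Θ hΘ ⟨U, hUf, ?_⟩
  have hle : Subgroup.normalClosure U ≤ Θ.ker := by
    apply Subgroup.normalClosure_le_normal
    rintro _ (⟨⟨z, x⟩, hq, rfl⟩ | ⟨s, hs, rfl⟩)
    · rw [SetLike.mem_coe, MonoidHom.mem_ker]
      simp only [r₁, map_mul, map_inv, hΘf, hΘa]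
      rw [hc, mul_inv_cancel]
    · rw [SetLike.mem_coe, MonoidHom.mem_ker]
      simp only [r₂, map_mul, map_inv, hΘf, hΘa]
      have : φ s = 1 := by
        have : s ∈ φ.ker := by rw [← hS]; exact Subgroup.subset_normalClosure hs
        exact this
      rw [hd s this, mul_inv_cancel]
  apply le_antisymm hle
  set q := QuotientGroup.mk' (Subgroup.normalClosure U) with hq
  have hq1 : ∀ h, q h = 1 ↔ h ∈ Subgroup.normalClosure U := by
    intro h
    rw [hq, ← MonoidHom.mem_ker, QuotientGroup.ker_mk']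
  have hqU : ∀ u ∈ U, q u = 1 := fun u hu => (hq1 u).2 (Subgroup.subset_normalClosure hu)
  let a := q.comp a₀
  let f := q.comp f₀
  -- commutation
  have hCz : ∀ z ∈ Z, ∀ n, ∃ n', f z * a n = a n' * f z := by
    intro z hz n
    have hn : n ∈ Subgroup.closure (X : Set N) := by rw [hX]; trivial
    induction hn using Subgroup.closure_induction with
    | mem x hx =>
      refine ⟨c (ψ z) x, ?_⟩
      have := hqU _ (Or.inl ⟨(z, x), ⟨hz, hx⟩, rfl⟩)
      simp only [r₁, map_mul, map_inv] at this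
      rw [mul_inv_eq_one, mul_inv_eq_iff_eq_mul] at this
      exact this
    | one => exact ⟨1, by simp⟩
    | mul x y _ _ hx hy =>
      obtain ⟨x', hx'⟩ := hx
      obtain ⟨y', hy'⟩ := hy
      refine ⟨x' * y', ?_⟩
      rw [map_mul, map_mul, ← mul_assoc, hx', mul_assoc, hy', mul_assoc]
    | inv x _ hx =>
      obtain ⟨x', hx'⟩ := hx
      refine ⟨x'⁻¹, ?_⟩
      rw [map_inv, map_inv, mul_inv_eq_iff_eq_mul, mul_assoc, hx', inv_mul_cancel_left]
  have hC : ∀ h, ∀ n, ∃ n', q h * a n = a n' * q h := by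
    refine hind _ ?_ ?_ ?_
    · intro n₀ n
      refine ⟨n₀ * n * n₀⁻¹, ?_⟩
      change a n₀ * a n = a (n₀ * n * n₀⁻¹) * a n₀
      rw [map_mul, map_mul, map_inv, inv_mul_cancel_right]
    · intro w
      change ∀ n, ∃ n', f w * a n = a n' * f w
      induction w using FreeGroup.induction_on with
      | C1 => exact fun n => ⟨n, by simp⟩
      | of i => exact hCz _ (Or.inl ⟨i, rfl⟩)
      | inv_of i _ => exact hCz _ (Or.inr ⟨i, rfl⟩)
      | mul x y hx hy =>
        intro n
        obtain ⟨n', hn'⟩ := hy n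
        obtain ⟨n'', hn''⟩ := hx n'
        refine ⟨n'', ?_⟩
        rw [map_mul, mul_assoc, hn', ← mul_assoc, hn'', mul_assoc]
    · intro x y hx hy n
      obtain ⟨n', hn'⟩ := hy n
      obtain ⟨n'', hn''⟩ := hx n'
      refine ⟨n'', ?_⟩
      rw [map_mul, mul_assoc, hn', ← mul_assoc, hn'', mul_assoc]
  have hD : ∀ h, ∃ n w, q h = a n * f w := by
    refine hind _ ?_ ?_ ?_
    · exact fun n => ⟨n, 1, by simp [a]⟩
    · exact fun w => ⟨1, w, by simp [f]⟩
    · intro x y hx hy
      obtain ⟨n, w, h1⟩ := hx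
      obtain ⟨n₂, w₂, h2⟩ := hy
      obtain ⟨n', h3⟩ := hC (f₀ w) n₂
      refine ⟨n * n', w * w₂, ?_⟩
      change f w * a n₂ = a n' * f w at h3
      rw [map_mul, h1, h2, map_mul, map_mul, mul_assoc, ← mul_assoc (f w), h3]
      group
  have hnorm : (a.range).Normal := by
    refine ⟨?_⟩
    rintro _ ⟨n, rfl⟩ g
    obtain ⟨h, rfl⟩ := QuotientGroup.mk'_surjective _ g
    obtain ⟨n', hn'⟩ := hC h n
    refine ⟨n', ?_⟩
    rw [eq_mul_inv_iff_mul_eq]
    exact hn'.symm
  have hE : ∀ w, φ w = 1 → ∃ n, f w = a n := by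
    intro w hw
    have h1 : Subgroup.normalClosure S ≤ (a.range).comap f := by
      apply Subgroup.normalClosure_le_normal
      intro s hs
      refine ⟨d s, ?_⟩
      have := hqU _ (Or.inr ⟨s, hs, rfl⟩)
      simp only [r₂, map_mul, map_inv] at this
      rw [mul_inv_eq_one] at this
      exact this.symm
    have h2 : w ∈ Subgroup.normalClosure S := by rw [hS]; exact hw
    obtain ⟨n, hn⟩ := h1 h2
    exact ⟨n, hn.symm⟩
  intro h hh
  obtain ⟨n, w, h1⟩ := hD h
  have h2 : h * (a₀ n * f₀ w)⁻¹ ∈ Subgroup.normalClosure U := by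
    rw [← hq1, map_mul, map_inv, mul_inv_eq_one, map_mul]
    exact h1
  have h3 : j n * ψ w = 1 := by
    have := hle h2
    rw [MonoidHom.mem_ker, map_mul, map_inv, (show Θ h = 1 from hh), one_mul, inv_eq_one, map_mul,
      hΘa, hΘf] at this
    exact this
  have h4 : φ w = 1 := by
    have h5 := congrArg ρ h3
    rw [map_mul, map_one, hψ] at h5
    have h6 : ρ (j n) = 1 := by
      have : j n ∈ ρ.ker := by rw [hker]; exact ⟨n, rfl⟩
      exact this
    rwa [h6, one_mul] at h5
  obtain ⟨n₂, h5⟩ := hE w h4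
  rw [h5, ← map_mul] at h1
  have h6 : h * (a₀ (n * n₂))⁻¹ ∈ Subgroup.normalClosure U := by
    rw [← hq1, map_mul, map_inv, mul_inv_eq_one]
    exact h1
  have h7 : n * n₂ = 1 := by
    have := hle h6
    rw [MonoidHom.mem_ker, map_mul, map_inv, (show Θ h = 1 from hh), one_mul, inv_eq_one,
      hΘa] at this
    exact hj (by rw [this, map_one])
  rw [h7, map_one] at h1
  exact (hq1 h).1 h1

/-- an extension of a finitely presented group by a finitely presented group is finitely
presented -/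
theorem fp_ext {N P Γ : Type} [Group N] [Group P] [Group Γ] (j : N →* P) (hj : Injective j)
    (ρ : P →* Γ) (hρ : Surjective ρ) (hker : ρ.ker = j.range)
    (hN : Group.IsFinitelyPresented N) (hΓ : Group.IsFinitelyPresented Γ) :
    Group.IsFinitelyPresented P := by
  refine fp_ext_aux j hj ρ hρ hker hN hΓ fun m ψ => ?_
  refine ⟨Monoid.Coprod N (FreeGroup (Fin m)), inferInstance, Monoid.Coprod.inl,
    Monoid.Coprod.inr, Monoid.Coprod.lift j ψ, fun n => Monoid.Coprod.lift_apply_inl j ψ n,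
    fun w => Monoid.Coprod.lift_apply_inr j ψ w, inferInstance, ?_⟩
  intro motive h1 h2 h3 h
  exact Monoid.Coprod.induction_on h h1 h2 h3

end Pool.Agent.W386
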