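import Pool.Agent.W386.Main
import Pool.Agent.W386.Grp

set_option autoImplicit false
set_option linter.unusedVariables false

/-!
# Comparison of the two formulations of the homological finiteness properties
-/

namespace Pool.Agent.W386

open Function

/-- homological data -/
def IsFdata (m : ℕ) (G : Type) [Group G] : Prop :=
  ∃ (k : ℕ → ℕ) (ε : MonoidAlgebra ℤ G →+* ℤ)
    (d : ∀ i : ℕ, (Fin (k (i+1)) → MonoidAlgebra ℤ G) →ₗ[MonoidAlgebra ℤ G]
          (Fin (k i) → MonoidAlgebra ℤ G)),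
    (∀ g : G, ε (MonoidAlgebra.of ℤ G g) = 1) ∧
    (∃ x : Fin (k 0) → MonoidAlgebra ℤ G, ∑ j, ε (x j) = 1) ∧
    (0 < m → ∀ x : Fin (k 0) → MonoidAlgebra ℤ G,
        (∑ j, ε (x j) = 0 ↔ x ∈ LinearMap.range (d 0))) ∧
    (∀ j : ℕ, j + 2 ≤ m → LinearMap.range (d (j+1)) = LinearMap.ker (d j))

variable {G : Type} [Group G]

theorem eps_eq_aug (ε : ZG G →+* ℤ) (h : ∀ g : G, ε (MonoidAlgebra.of ℤ G g) = 1) (x : ZG G) :
    ε x = aug G x := by
  let S : AddSubgroup (ZG G) :=
    { carrier := {x | ε x = aug G x}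
      add_mem' := by
        intro x y hx hy
        simp only [Set.mem_ofPred_eq] at hx hy ⊢
        rw [map_add, map_add, hx, hy]
      zero_mem' := by simp
      neg_mem' := by
        intro x hx
        simp only [Set.mem_ofPred_eq] at hx ⊢
        rw [map_neg, map_neg, hx] }
  refine zg_induction S (fun g => ?_) x
  change ε (MonoidAlgebra.of ℤ G g) = aug G (MonoidAlgebra.of ℤ G g)
  rw [h, aug_of]

/-- the sum of augmentations -/
noncomputable def sumAug (G : Type) [Group G] (k : ℕ) : (Fin k → ZG G) →ₗ[ZG G] Triv G where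
  toFun := fun x => ∑ j, aug G (x j)
  map_add' := fun x y => by
    have h : ∑ j, aug G ((x + y) j) = ∑ j, aug G (x j) + ∑ j, aug G (y j) := by
      rw [← Finset.sum_add_distrib]
      exact Finset.sum_congr rfl fun j _ => map_add _ _ _
    exact h
  map_smul' := fun r x => by
    have h : ∑ j, aug G ((r • x) j) = aug G r * ∑ j, aug G (x j) := by
      rw [Finset.mul_sum]
      exact Finset.sum_congr rfl fun j _ => map_mul _ _ _
    exact h

theorem sumAug_mem_ker {k : ℕ} (x : Fin k → ZG G) :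
    x ∈ LinearMap.ker (sumAug G k) ↔ ∑ j, aug G (x j) = 0 := Iff.rfl

theorem sumAug_surj {k : ℕ} (h : ∃ x : Fin k → ZG G, ∑ j, aug G (x j) = 1) :
    Surjective (sumAug G k) := by
  obtain ⟨x, hx⟩ := h
  intro z
  refine ⟨((id z : ℤ) : ZG G) • x, ?_⟩
  have h : ∑ j, aug G ((((id z : ℤ) : ZG G) • x) j) = (id z : ℤ) := by
    have h1 : ∀ j, aug G ((((id z : ℤ) : ZG G) • x) j) = (id z : ℤ) * aug G (x j) := by
      intro j
      rw [Pi.smul_apply, smul_eq_mul, map_mul, map_intCast, Int.cast_id]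
    simp only [h1]
    rw [← Finset.mul_sum, hx, mul_one]
  exact h

theorem fps_of_data {m : ℕ} (hm : 0 < m) (h : IsFdata m G) : FPs (ZG G) (m + 1) (Triv G) := by
  obtain ⟨k, ε, d, hε, hsurj, h0, hd⟩ := h
  simp only [eps_eq_aug ε hε] at hsurj h0
  have key : ∀ i j, j + i + 1 = m → FPs (ZG G) (i + 1) (LinearMap.range (d j)) := by
    intro i
    induction i with
    | zero =>
      intro j hj
      exact ⟨k (j + 1), (d j).rangeRestrict, (d j).surjective_rangeRestrict, trivial⟩
    | succ i ih =>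
      intro j hj
      refine ⟨k (j + 1), (d j).rangeRestrict, (d j).surjective_rangeRestrict, ?_⟩
      rw [LinearMap.ker_rangeRestrict, ← hd j (by omega)]
      exact ih (j + 1) (by omega)
  refine ⟨k 0, sumAug G (k 0), sumAug_surj hsurj, ?_⟩
  have h1 : LinearMap.ker (sumAug G (k 0)) = LinearMap.range (d 0) := by
    ext x
    rw [sumAug_mem_ker]
    exact h0 hm x
  rw [h1]
  obtain ⟨m', rfl⟩ := Nat.exists_eq_succ_of_ne_zero hm.ne'
  exact key m' 0 (by omega)

section tower

variable {R : Type} [Ring R]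

/-- prepending to a sequence -/
def consN (a : ℕ) (k : ℕ → ℕ) : ℕ → ℕ
  | 0 => a
  | i + 1 => k i

/-- prepending to a tower -/
def consD {a : ℕ} {k : ℕ → ℕ} (d0 : (Fin (k 0) → R) →ₗ[R] (Fin a → R))
    (d : ∀ i, (Fin (k (i + 1)) → R) →ₗ[R] (Fin (k i) → R)) :
    ∀ i, (Fin (consN a k (i + 1)) → R) →ₗ[R] (Fin (consN a k i) → R)
  | 0 => d0
  | i + 1 => d i

theorem tower : ∀ (j k0 : ℕ) (M : Submodule R (Fin k0 → R)), FPs R j M →
    ∃ (k : ℕ → ℕ) (d0 : (Fin (k 0) → R) →ₗ[R] (Fin k0 → R))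
      (d : ∀ i, (Fin (k (i + 1)) → R) →ₗ[R] (Fin (k i) → R)),
      (1 ≤ j → LinearMap.range d0 = M) ∧ (2 ≤ j → LinearMap.range (d 0) = LinearMap.ker d0) ∧
      (∀ i, i + 3 ≤ j → LinearMap.range (d (i + 1)) = LinearMap.ker (d i)) := by
  intro j
  induction j with
  | zero =>
    intro k0 M _
    exact ⟨fun _ => 0, 0, fun _ => 0, fun h => by omega, fun h => by omega, fun i h => by omega⟩
  | succ j ih =>
    rintro k0 M ⟨k1, f, hf, h⟩
    obtain ⟨k, d0, d, h1, h2, h3⟩ := ih k1 _ h
    refine ⟨consN k1 k, M.subtype.comp f, consD d0 d, ?_, ?_, ?_⟩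
    · intro _
      have h5 : LinearMap.range (M.subtype.comp f) = M := by
        rw [LinearMap.range_comp, LinearMap.range_eq_top.2 hf, Submodule.map_top,
          Submodule.range_subtype]
      exact h5
    · intro hj
      have h5 : LinearMap.range d0 = LinearMap.ker (M.subtype.comp f) := by
        rw [h1 (by omega)]
        ext x
        constructor
        · intro hx
          have : f x = 0 := hx
          change ((f x : M) : Fin k0 → R) = 0
          rw [this]
          rfl
        · intro hx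
          exact Subtype.ext hx
      exact h5
    · intro i hi
      cases i with
      | zero => exact h2 (by omega)
      | succ i => exact h3 i (by omega)

end tower

theorem data_of_fps {m : ℕ} (h : FPs (ZG G) (m + 1) (Triv G)) : IsFdata m G := by
  have hsurj : ∃ x : Fin 1 → ZG G, ∑ j, aug G (x j) = 1 :=
    ⟨fun _ => 1, by simp⟩
  have h1 : FPs (ZG G) m (LinearMap.ker (sumAug G 1)) :=
    FPs.ker_of_cover (FGF.fin 1) h _ (sumAug_surj hsurj)
  obtain ⟨k, d0, d, h2, h3, h4⟩ := tower m 1 _ h1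
  refine ⟨consN 1 k, aug G, consD d0 d, aug_of, hsurj, ?_, ?_⟩
  · intro hm x
    have : ∀ x : Fin 1 → ZG G, x ∈ LinearMap.range d0 ↔ ∑ j, aug G (x j) = 0 := by
      intro x
      rw [h2 hm, sumAug_mem_ker]
    exact (this x).symm
  · intro j hj
    cases j with
    | zero => exact h3 hj
    | succ j => exact h4 j (by omega)

theorem fp_iff : Group.IsFinitelyPresented G ↔
    ∃ (r : ℕ) (f : FreeGroup (Fin r) →* G) (S : Finset (FreeGroup (Fin r))),
      Function.Surjective f ∧ f.ker = Subgroup.normalClosure (↑S : Set (FreeGroup (Fin r))) := by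
  constructor
  · rintro ⟨n, φ, hφ, S, hSf, hS⟩
    exact ⟨n, φ, hSf.toFinset, hφ, by rw [hSf.coe_toFinset, hS]⟩
  · rintro ⟨n, φ, S, hφ, hS⟩
    exact ⟨n, φ, hφ, S, S.finite_toSet, hS.symm⟩

end Pool.Agent.W386
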