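import Mathlib

set_option autoImplicit false

/-!
# Modules with partial resolutions by finitely generated free modules

`FPs R j M` says that the `R`-module `M` has a partial resolution
`F_{j-1} → ... → F_0 → M → 0` by `j` finitely generated free modules (so `FPs R (j+1) M` is the
usual type `FP_j`).
-/

namespace Pool.Agent.W386

open Function

variable {R : Type} [Ring R]

/-- `M` has a partial resolution of length `j` by finitely generated free modules. -/
def FPs (R : Type) [Ring R] : ℕ → ∀ (M : Type) [AddCommGroup M] [Module R M], Prop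
  | 0 => fun _ _ _ => True
  | j + 1 => fun M _ _ => ∃ (k : ℕ) (f : (Fin k → R) →ₗ[R] M),
      Surjective f ∧ FPs R j (LinearMap.ker f)

section
variable {M M' A B C : Type} [AddCommGroup M] [Module R M] [AddCommGroup M'] [Module R M']
  [AddCommGroup A] [Module R A] [AddCommGroup B] [Module R B] [AddCommGroup C] [Module R C]

theorem FPs.zero : FPs R 0 M := trivial

theorem FPs.equiv {j : ℕ} (e : M ≃ₗ[R] M') (h : FPs R j M) : FPs R j M' := by
  cases j with
  | zero => trivial
  | succ j =>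
    obtain ⟨k, f, hf, h⟩ := h
    refine ⟨k, e.toLinearMap ∘ₗ f, e.surjective.comp hf, ?_⟩
    have : LinearMap.ker (e.toLinearMap ∘ₗ f) = LinearMap.ker f := by
      ext x
      simp [LinearMap.mem_ker]
    rw [this]
    exact h

theorem FPs.of_subsingleton (j : ℕ) : ∀ (M : Type) [AddCommGroup M] [Module R M]
    [Subsingleton M], FPs R j M := by
  induction j with
  | zero => intros; trivial
  | succ j ih =>
    intro M _ _ _
    refine ⟨0, 0, fun x => ⟨0, Subsingleton.elim _ _⟩, ?_⟩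
    exact ih _

/-- `X` is a finitely generated free module. -/
def FGF (R : Type) [Ring R] (X : Type) [AddCommGroup X] [Module R X] : Prop :=
  ∃ k : ℕ, Nonempty (X ≃ₗ[R] (Fin k → R))

theorem FGF.fin (k : ℕ) : FGF R (Fin k → R) := ⟨k, ⟨LinearEquiv.refl R _⟩⟩

theorem FGF.prod {X Y : Type} [AddCommGroup X] [Module R X] [AddCommGroup Y] [Module R Y]
    (hX : FGF R X) (hY : FGF R Y) : FGF R (X × Y) := by
  obtain ⟨k, ⟨e⟩⟩ := hX
  obtain ⟨l, ⟨e'⟩⟩ := hY
  have e1 : (X × Y) ≃ₗ[R] ((Fin k → R) × (Fin l → R)) := LinearEquiv.prodCongr e e'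
  have e2 : ((Fin k → R) × (Fin l → R)) ≃ₗ[R] (Fin (k + l) → R) :=
    (LinearEquiv.sumArrowLequivProdArrow (Fin k) (Fin l) R R).symm.trans
      (LinearEquiv.funCongrLeft R R finSumFinEquiv.symm)
  exact ⟨k + l, ⟨e1.trans e2⟩⟩

theorem FGF.pi {ι X : Type} [Finite ι] [AddCommGroup X] [Module R X]
    (hX : FGF R X) : FGF R (ι → X) := by
  obtain ⟨k, ⟨e⟩⟩ := hX
  have e1 : (ι → X) ≃ₗ[R] (ι → Fin k → R) := LinearEquiv.piCongrRight (fun _ => e)
  have e2 : (ι → Fin k → R) ≃ₗ[R] (ι × Fin k → R) := (LinearEquiv.curry R R ι (Fin k)).symm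
  have := Fintype.ofFinite ι
  exact ⟨Fintype.card (ι × Fin k), ⟨(e1.trans e2).trans
    (LinearEquiv.funCongrLeft R R (Fintype.equivFin (ι × Fin k)).symm)⟩⟩

theorem FGF.equiv {X Y : Type} [AddCommGroup X] [Module R X] [AddCommGroup Y] [Module R Y]
    (hX : FGF R X) (e : X ≃ₗ[R] Y) : FGF R Y := by
  obtain ⟨k, ⟨e'⟩⟩ := hX
  exact ⟨k, ⟨e.symm.trans e'⟩⟩

theorem FGF.lift {X : Type} [AddCommGroup X] [Module R X] (hX : FGF R X) (p : B →ₗ[R] C)
    (hp : Surjective p) (c : X →ₗ[R] C) : ∃ c' : X →ₗ[R] B, p ∘ₗ c' = c := by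
  obtain ⟨k, ⟨e⟩⟩ := hX
  have : Module.Projective R X := Module.Projective.of_equiv e.symm
  exact Module.projective_lifting_property p c hp

theorem FPs.of_fgf {X : Type} [AddCommGroup X] [Module R X] (hX : FGF R X) (j : ℕ) :
    FPs R j X := by
  obtain ⟨k, ⟨e⟩⟩ := hX
  cases j with
  | zero => trivial
  | succ j =>
    refine ⟨k, e.symm.toLinearMap, e.symm.surjective, ?_⟩
    have : LinearMap.ker e.symm.toLinearMap = ⊥ := LinearEquiv.ker e.symm
    rw [this]
    exact FPs.of_subsingleton j _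

/-- a cover by a finitely generated free module, weak form -/
theorem FPs.of_cover_aux {j : ℕ} {X : Type} [AddCommGroup X] [Module R X] (hX : FGF R X)
    (f : X →ₗ[R] M) (hf : Surjective f) (h : FPs R j (LinearMap.ker f)) : FPs R (j + 1) M := by
  obtain ⟨k, ⟨e⟩⟩ := hX
  refine ⟨k, f ∘ₗ e.symm.toLinearMap, hf.comp e.symm.surjective, ?_⟩
  refine FPs.equiv (M := LinearMap.ker f) ?_ h
  refine LinearEquiv.ofSubmodules e (LinearMap.ker f) (LinearMap.ker (f ∘ₗ e.symm.toLinearMap)) ?_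
  ext x
  simp only [Submodule.mem_map, LinearMap.mem_ker, LinearMap.comp_apply, LinearEquiv.coe_coe]
  constructor
  · rintro ⟨y, hy, rfl⟩
    simpa using hy
  · intro h
    exact ⟨e.symm x, h, by simp⟩

/-- extensions -/
theorem FPs.ext (j : ℕ) : ∀ {B C : Type} [AddCommGroup B] [Module R B] [AddCommGroup C]
    [Module R C] (p : B →ₗ[R] C), Surjective p → FPs R j (LinearMap.ker p) → FPs R j C →
    FPs R j B := by
  induction j with
  | zero => intros; trivial
  | succ j ih =>
    intro B C _ _ _ _ p hp hA hC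
    obtain ⟨m, a, ha, hA⟩ := hA
    obtain ⟨l, c, hc, hC⟩ := hC
    obtain ⟨c', hc'⟩ := (FGF.fin (R := R) l).lift p hp c
    have hc'' : ∀ y, p (c' y) = c y := fun y => by rw [← hc']; rfl
    let h : ((Fin m → R) × (Fin l → R)) →ₗ[R] B :=
      ((LinearMap.ker p).subtype ∘ₗ a).coprod c'
    have hh : ∀ x y, h (x, y) = (a x : B) + c' y := fun x y => by simp [h]
    have hsurj : Surjective h := by
      intro b
      obtain ⟨y, hy⟩ := hc (p b)
      have hk : b - c' y ∈ LinearMap.ker p := by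
        rw [LinearMap.mem_ker, map_sub, hc'', hy, sub_self]
      obtain ⟨x, hx⟩ := ha ⟨_, hk⟩
      refine ⟨(x, y), ?_⟩
      rw [hh, hx]
      simp
    refine FPs.of_cover_aux ((FGF.fin m).prod (FGF.fin l)) h hsurj ?_
    let q : LinearMap.ker h →ₗ[R] LinearMap.ker c :=
      ((LinearMap.snd R (Fin m → R) (Fin l → R)) ∘ₗ (LinearMap.ker h).subtype).codRestrict _ (by
        rintro ⟨⟨x, y⟩, hxy⟩
        rw [LinearMap.mem_ker, hh] at hxy
        rw [LinearMap.mem_ker]
        change c y = 0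
        have := congrArg p hxy
        rw [map_add, map_zero, hc'', (a x).2, zero_add] at this
        exact this)
    have hq : ∀ z : LinearMap.ker h, ((q z : LinearMap.ker c) : Fin l → R) = z.1.2 := fun z => rfl
    refine ih q ?_ ?_ hC
    · rintro ⟨y, hy⟩
      have hk : - c' y ∈ LinearMap.ker p := by
        rw [LinearMap.mem_ker, map_neg, hc'', hy, neg_zero]
      obtain ⟨x, hx⟩ := ha ⟨_, hk⟩
      refine ⟨⟨(x, y), ?_⟩, ?_⟩
      · rw [LinearMap.mem_ker, hh, hx]
        simp
      · apply Subtype.ext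
        rfl
    · refine FPs.equiv (M := LinearMap.ker a) ?_ hA
      refine LinearEquiv.ofBijective
        ((((LinearMap.inl R (Fin m → R) (Fin l → R)) ∘ₗ (LinearMap.ker a).subtype).codRestrict
          (LinearMap.ker h) ?_).codRestrict (LinearMap.ker q) ?_) ⟨?_, ?_⟩
      · rintro ⟨x, hx⟩
        rw [LinearMap.mem_ker] at hx ⊢
        change h (x, 0) = 0
        rw [hh, hx]
        simp
      · rintro ⟨x, hx⟩
        rw [LinearMap.mem_ker]
        apply Subtype.ext
        rw [hq]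
        rfl
      · rintro ⟨x, hx⟩ ⟨y, hy⟩ hxy
        apply Subtype.ext
        have := congrArg (fun z => (z.1.1.1 : Fin m → R)) hxy
        exact this
      · rintro ⟨⟨⟨x, y⟩, h1⟩, h2⟩
        have hy : y = 0 := by
          rw [LinearMap.mem_ker] at h2
          have := congrArg Subtype.val h2
          exact this
        subst hy
        refine ⟨⟨x, ?_⟩, ?_⟩
        · rw [LinearMap.mem_ker] at h1 ⊢
          rw [hh] at h1
          apply Subtype.ext
          simpa using h1
        · apply Subtype.ext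
          apply Subtype.ext
          rfl

theorem FPs.mono {j : ℕ} : ∀ {M : Type} [AddCommGroup M] [Module R M], FPs R (j + 1) M →
    FPs R j M := by
  induction j with
  | zero => intros; trivial
  | succ j ih =>
    rintro M _ _ ⟨k, f, hf, h⟩
    exact ⟨k, f, hf, ih h⟩

/-- A composite kernel: `f : X → B`, `p : B → C` surjective, the kernel of `p ∘ f` maps onto the
kernel of `p` with kernel that of `f`. -/
theorem FPs.ker_comp {j : ℕ} {X : Type} [AddCommGroup X] [Module R X] (f : X →ₗ[R] B)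
    (p : B →ₗ[R] C) (hf : Surjective f) (h : FPs R j (LinearMap.ker f))
    (h' : FPs R j (LinearMap.ker p)) : FPs R j (LinearMap.ker (p ∘ₗ f)) := by
  let q : LinearMap.ker (p ∘ₗ f) →ₗ[R] LinearMap.ker p :=
    (f ∘ₗ (LinearMap.ker (p ∘ₗ f)).subtype).codRestrict _ (by
      rintro ⟨x, hx⟩
      exact hx)
  have hq : ∀ z, ((q z : LinearMap.ker p) : B) = f z.1 := fun z => rfl
  refine FPs.ext j q ?_ ?_ h'
  · rintro ⟨b, hb⟩
    obtain ⟨x, rfl⟩ := hf b
    exact ⟨⟨x, hb⟩, rfl⟩
  · refine FPs.equiv (M := LinearMap.ker f) ?_ h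
    refine LinearEquiv.ofBijective
        (((LinearMap.ker f).subtype.codRestrict
          (LinearMap.ker (p ∘ₗ f)) ?_).codRestrict (LinearMap.ker q) ?_) ⟨?_, ?_⟩
    · rintro ⟨x, hx⟩
      rw [LinearMap.mem_ker] at hx ⊢
      change p (f x) = 0
      rw [hx, map_zero]
    · rintro ⟨x, hx⟩
      rw [LinearMap.mem_ker]
      apply Subtype.ext
      exact hx
    · rintro ⟨x, hx⟩ ⟨y, hy⟩ hxy
      apply Subtype.ext
      exact congrArg (fun z => (z.1.1 : X)) hxy
    · rintro ⟨⟨x, h1⟩, h2⟩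
      refine ⟨⟨x, ?_⟩, rfl⟩
      exact congrArg Subtype.val h2

/-- quotients -/
theorem FPs.quot {j : ℕ} (p : B →ₗ[R] C) (hp : Surjective p) (hA : FPs R j (LinearMap.ker p))
    (hB : FPs R (j + 1) B) : FPs R (j + 1) C := by
  obtain ⟨k, f, hf, h⟩ := hB
  exact ⟨k, p ∘ₗ f, hp.comp hf, FPs.ker_comp f p hf h hA⟩

/-- removing a free summand -/
theorem FPs.of_ker_fgf {j : ℕ} {X : Type} [AddCommGroup X] [Module R X] (hX : FGF R X)
    (p : B →ₗ[R] X) (hp : Surjective p) (hB : FPs R j B) : FPs R j (LinearMap.ker p) := by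
  cases j with
  | zero => trivial
  | succ j =>
    obtain ⟨s, hs⟩ := hX.lift p hp LinearMap.id
    have hs' : ∀ x, p (s x) = x := fun x => by
      have := LinearMap.congr_fun hs x
      exact this
    -- the projection `B → ker p`, whose kernel is `X`
    let r : B →ₗ[R] LinearMap.ker p := (LinearMap.id - s ∘ₗ p).codRestrict _ (by
      intro b
      rw [LinearMap.mem_ker]
      simp [hs'])
    have hr : ∀ b, ((r b : LinearMap.ker p) : B) = b - s (p b) := fun b => rfl
    refine FPs.quot r ?_ ?_ hB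
    · rintro ⟨b, hb⟩
      refine ⟨b, ?_⟩
      apply Subtype.ext
      rw [hr]
      rw [LinearMap.mem_ker] at hb
      simp [hb]
    · refine FPs.equiv (M := X) ?_ (FPs.of_fgf hX j)
      refine LinearEquiv.ofBijective (s.codRestrict _ ?_) ⟨?_, ?_⟩
      · intro x
        rw [LinearMap.mem_ker]
        apply Subtype.ext
        rw [hr, hs']
        simp
      · intro x y hxy
        have := congrArg (fun z => p z.1) hxy
        change p (s x) = p (s y) at this
        rwa [hs', hs'] at this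
      · rintro ⟨b, hb⟩
        refine ⟨p b, ?_⟩
        apply Subtype.ext
        rw [LinearMap.mem_ker] at hb
        have := congrArg Subtype.val hb
        rw [hr] at this
        exact (sub_eq_zero.1 this).symm

/-- The pull back of two maps. -/
def pb {X Y : Type} [AddCommGroup X] [Module R X] [AddCommGroup Y] [Module R Y]
    (f : X →ₗ[R] M) (g : Y →ₗ[R] M) : Submodule R (X × Y) :=
  LinearMap.ker (f.coprod (-g))

theorem mem_pb {X Y : Type} [AddCommGroup X] [Module R X] [AddCommGroup Y] [Module R Y]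
    (f : X →ₗ[R] M) (g : Y →ₗ[R] M) (z : X × Y) : z ∈ pb f g ↔ f z.1 = g z.2 := by
  rw [pb, LinearMap.mem_ker, LinearMap.coprod_apply, LinearMap.neg_apply, add_neg_eq_zero]

theorem FPs.pb_of_left {j : ℕ} {X Y : Type} [AddCommGroup X] [Module R X] [AddCommGroup Y]
    [Module R Y] (f : X →ₗ[R] M) (g : Y →ₗ[R] M) (hf : Surjective f)
    (h : FPs R j (LinearMap.ker f)) (hY : FPs R j Y) : FPs R j (pb f g) := by
  let q : pb f g →ₗ[R] Y := (LinearMap.snd R X Y) ∘ₗ (pb f g).subtype
  refine FPs.ext j q ?_ ?_ hY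
  · intro y
    obtain ⟨x, hx⟩ := hf (g y)
    exact ⟨⟨(x, y), (mem_pb _ _ _).2 hx⟩, rfl⟩
  · refine FPs.equiv (M := LinearMap.ker f) ?_ h
    refine LinearEquiv.ofBijective
        ((((LinearMap.inl R X Y) ∘ₗ (LinearMap.ker f).subtype).codRestrict
          (pb f g) ?_).codRestrict (LinearMap.ker q) ?_) ⟨?_, ?_⟩
    · rintro ⟨x, hx⟩
      rw [mem_pb]
      rw [LinearMap.mem_ker] at hx
      change f x = g 0
      rw [hx, map_zero]
    · rintro ⟨x, hx⟩
      rw [LinearMap.mem_ker]
      rfl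
    · rintro ⟨x, hx⟩ ⟨y, hy⟩ hxy
      apply Subtype.ext
      exact congrArg (fun z => (z.1.1.1 : X)) hxy
    · rintro ⟨⟨⟨x, y⟩, h1⟩, h2⟩
      have hy : y = 0 := h2
      subst hy
      rw [mem_pb] at h1
      refine ⟨⟨x, ?_⟩, rfl⟩
      rw [LinearMap.mem_ker]
      have : f x = g 0 := h1
      rw [this, map_zero]

theorem FPs.pb_to_right {j : ℕ} {X Y : Type} [AddCommGroup X] [Module R X] [AddCommGroup Y]
    [Module R Y] (hX : FGF R X) (f : X →ₗ[R] M) (g : Y →ₗ[R] M) (hg : Surjective g)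
    (h : FPs R j (pb f g)) : FPs R j (LinearMap.ker g) := by
  let q : pb f g →ₗ[R] X := (LinearMap.fst R X Y) ∘ₗ (pb f g).subtype
  have hq : Surjective q := by
    intro x
    obtain ⟨y, hy⟩ := hg (f x)
    exact ⟨⟨(x, y), (mem_pb _ _ _).2 hy.symm⟩, rfl⟩
  refine FPs.equiv ?_ (FPs.of_ker_fgf hX q hq h)
  refine LinearEquiv.symm (LinearEquiv.ofBijective
        ((((LinearMap.inr R X Y) ∘ₗ (LinearMap.ker g).subtype).codRestrict
          (pb f g) ?_).codRestrict (LinearMap.ker q) ?_) ⟨?_, ?_⟩)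
  · rintro ⟨y, hy⟩
    rw [mem_pb]
    rw [LinearMap.mem_ker] at hy
    change f 0 = g y
    rw [hy, map_zero]
  · rintro ⟨x, hx⟩
    rw [LinearMap.mem_ker]
    rfl
  · rintro ⟨x, hx⟩ ⟨y, hy⟩ hxy
    apply Subtype.ext
    exact congrArg (fun z => (z.1.1.2 : Y)) hxy
  · rintro ⟨⟨⟨x, y⟩, h1⟩, h2⟩
    have hx : x = 0 := h2
    subst hx
    rw [mem_pb] at h1
    refine ⟨⟨y, ?_⟩, rfl⟩
    rw [LinearMap.mem_ker]
    have : f 0 = g y := h1
    rw [← this, map_zero]

/-- Schanuel -/
theorem FPs.ker_of_cover {j : ℕ} {X : Type} [AddCommGroup X] [Module R X] (hX : FGF R X)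
    (hM : FPs R (j + 1) M) (g : X →ₗ[R] M) (hg : Surjective g) :
    FPs R j (LinearMap.ker g) := by
  obtain ⟨k, f, hf, h⟩ := hM
  exact FPs.pb_to_right (FGF.fin k) f g hg (FPs.pb_of_left f g hf h (FPs.of_fgf hX j))

/-- kernels -/
theorem FPs.ker {j : ℕ} (p : B →ₗ[R] C) (hp : Surjective p) (hC : FPs R (j + 1) C)
    (hB : FPs R j B) : FPs R j (LinearMap.ker p) := by
  cases j with
  | zero => trivial
  | succ j =>
    obtain ⟨k, f, hf, h⟩ := hB
    -- `ker (p ∘ f)` maps onto `ker p` with kernel `ker f`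
    have h1 : FPs R (j + 1) (LinearMap.ker (p ∘ₗ f)) :=
      FPs.ker_of_cover (FGF.fin k) hC (p ∘ₗ f) (hp.comp hf)
    let q : LinearMap.ker (p ∘ₗ f) →ₗ[R] LinearMap.ker p :=
      (f ∘ₗ (LinearMap.ker (p ∘ₗ f)).subtype).codRestrict _ (by
        rintro ⟨x, hx⟩
        exact hx)
    refine FPs.quot q ?_ ?_ h1
    · rintro ⟨b, hb⟩
      obtain ⟨x, rfl⟩ := hf b
      exact ⟨⟨x, hb⟩, rfl⟩
    · refine FPs.equiv (M := LinearMap.ker f) ?_ h
      refine LinearEquiv.ofBijective
          (((LinearMap.ker f).subtype.codRestrict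
            (LinearMap.ker (p ∘ₗ f)) ?_).codRestrict (LinearMap.ker q) ?_) ⟨?_, ?_⟩
      · rintro ⟨x, hx⟩
        rw [LinearMap.mem_ker] at hx ⊢
        change p (f x) = 0
        rw [hx, map_zero]
      · rintro ⟨x, hx⟩
        rw [LinearMap.mem_ker]
        apply Subtype.ext
        exact hx
      · rintro ⟨x, hx⟩ ⟨y, hy⟩ hxy
        apply Subtype.ext
        exact congrArg (fun z => (z.1.1 : _)) hxy
      · rintro ⟨⟨x, h1⟩, h2⟩
        refine ⟨⟨x, ?_⟩, rfl⟩
        exact congrArg Subtype.val h2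

/-- a product of a module and of a finitely generated free one -/
theorem FPs.prod {j : ℕ} (hA : FPs R j A) (hB : FPs R j B) : FPs R j (A × B) := by
  refine FPs.ext j (LinearMap.snd R A B) Prod.snd_surjective ?_ hB
  refine FPs.equiv (M := A) ?_ hA
  refine LinearEquiv.ofBijective ((LinearMap.inl R A B).codRestrict _ ?_) ⟨?_, ?_⟩
  · intro a
    rw [LinearMap.mem_ker]
    rfl
  · intro x y hxy
    exact congrArg (fun z => z.1.1) hxy
  · rintro ⟨⟨x, y⟩, h⟩
    have hy : y = 0 := h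
    subst hy
    exact ⟨x, rfl⟩

/-- finite powers -/
theorem FPs.pi_fin {j : ℕ} (hA : FPs R j A) (n : ℕ) : FPs R j (Fin n → A) := by
  induction n with
  | zero => exact FPs.of_subsingleton j _
  | succ n ih =>
    exact FPs.equiv (Fin.consLinearEquiv R (fun _ : Fin (n + 1) => A)) (FPs.prod hA ih)

theorem FPs.pi {ι : Type} [Finite ι] {j : ℕ} (hA : FPs R j A) : FPs R j (ι → A) := by
  have := Fintype.ofFinite ι
  exact FPs.equiv (LinearEquiv.funCongrLeft R A (Fintype.equivFin ι)) (FPs.pi_fin hA _)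

end

end Pool.Agent.W386
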