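import Pool.Agent.W386.Transfer

set_option autoImplicit false
set_option linter.unusedVariables false

/-!
# The homological statement for extensions
-/

namespace Pool.Agent.W386

open Function

section res

variable {R R' : Type} [Ring R] [Ring R'] (φ : R →+* R')

/-- restriction of scalars along `φ` -/
def Res (_ : R →+* R') (M : Type) : Type := M

instance (M : Type) [h : AddCommGroup M] : AddCommGroup (Res φ M) := h

noncomputable instance (M : Type) [AddCommGroup M] [Module R' M] : Module R (Res φ M) :=
  Module.compHom (R := R') M φ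

theorem res_smul {M : Type} [AddCommGroup M] [Module R' M] (r : R) (m : Res φ M) :
    r • m = (show Res φ M from (φ r • (show M from m))) := rfl

/-- restriction of scalars of a map -/
def Res.map {M M' : Type} [AddCommGroup M] [Module R' M] [AddCommGroup M'] [Module R' M']
    (f : M →ₗ[R'] M') : Res φ M →ₗ[R] Res φ M' where
  toFun := f
  map_add' := f.map_add
  map_smul' := fun r m => f.map_smul (φ r) m

theorem Res.map_apply {M M' : Type} [AddCommGroup M] [Module R' M] [AddCommGroup M']
    [Module R' M'] (f : M →ₗ[R'] M') (m : M) :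
    Res.map φ f (show Res φ M from m) = (show Res φ M' from f m) := rfl

/-- the kernel of a restricted map -/
def Res.kerEquiv {M M' : Type} [AddCommGroup M] [Module R' M] [AddCommGroup M'] [Module R' M']
    (f : M →ₗ[R'] M') : Res φ (LinearMap.ker f) ≃ₗ[R] LinearMap.ker (Res.map φ f) where
  toFun := fun x => ⟨(x : LinearMap.ker f).1, (x : LinearMap.ker f).2⟩
  map_add' := fun x y => rfl
  map_smul' := fun r x => rfl
  invFun := fun x => (⟨x.1, x.2⟩ : LinearMap.ker f)
  left_inv := fun x => rfl
  right_inv := fun x => rfl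

/-- powers -/
def Res.piEquiv {ι M : Type} [AddCommGroup M] [Module R' M] :
    (ι → Res φ M) ≃ₗ[R] Res φ (ι → M) where
  toFun := fun x => x
  map_add' := fun x y => rfl
  map_smul' := fun r x => rfl
  invFun := fun x => x
  left_inv := fun x => rfl
  right_inv := fun x => rfl

theorem FPs.res_pi {n k : ℕ} {M : Type} [AddCommGroup M] [Module R' M]
    (h : FPs R n (Res φ M)) : FPs R n (Res φ (Fin k → M)) :=
  FPs.equiv (Res.piEquiv φ) (FPs.pi h)

theorem FPs.res {n : ℕ} (hR' : FPs R n (Res φ R')) : ∀ j ≤ n, ∀ {M : Type} [AddCommGroup M]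
    [Module R' M], FPs R' j M → FPs R j (Res φ M) := by
  intro j
  induction j with
  | zero => intros; trivial
  | succ j ih =>
    rintro hj M _ _ ⟨k, f, hf, h⟩
    have h1 := ih (by omega) h
    have hR'' : FPs R (j + 1) (Res φ R') := by
      have : ∀ d, FPs R (j + 1 + d) (Res φ R') → FPs R (j + 1) (Res φ R') := by
        intro d
        induction d with
        | zero => exact id
        | succ d ihd => exact fun h => ihd h.mono
      apply this (n - (j + 1))
      rwa [Nat.add_sub_cancel' hj]
    have h2 : FPs R (j + 1) (Res φ (Fin k → R')) := FPs.res_pi φ hR''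
    exact FPs.quot (Res.map φ f) hf (FPs.equiv (Res.kerEquiv φ f) h1) h2

end res

section triv

/-- augmentation -/
noncomputable def aug (P : Type) [Group P] : ZG P →+* ℤ :=
  ((MonoidAlgebra.lift ℤ ℤ P) 1 : ZG P →ₐ[ℤ] ℤ).toRingHom

theorem aug_of {P : Type} [Group P] (p : P) : aug P (MonoidAlgebra.of ℤ P p) = 1 := by
  simp [aug]

/-- the trivial module -/
abbrev Triv (P : Type) [Group P] : Type := Res (aug P) ℤ

variable {P G : Type} [Group P] [Group G]

/-- the ring homomorphism of group rings -/
noncomputable abbrev gr (b : P →* G) : ZG P →+* ZG G := MonoidAlgebra.mapDomainRingHom ℤ b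

theorem aug_gr (b : P →* G) (r : ZG P) : aug G (gr b r) = aug P r := by
  let S : AddSubgroup (ZG P) :=
    { carrier := {r | aug G (gr b r) = aug P r}
      add_mem' := by
        intro x y hx hy
        simp only [Set.mem_ofPred_eq] at hx hy ⊢
        rw [map_add, map_add, map_add, hx, hy]
      zero_mem' := by simp
      neg_mem' := by
        intro x hx
        simp only [Set.mem_ofPred_eq] at hx ⊢
        rw [map_neg, map_neg, map_neg, hx] }
  refine zg_induction S (fun p => ?_) r
  change aug G (gr b (MonoidAlgebra.of ℤ P p)) = aug P (MonoidAlgebra.of ℤ P p)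
  rw [mapDomain_of, aug_of, aug_of]

/-- `ℤ[G]` as a module over `ℤ[P]` -/
abbrev Ext (b : P →* G) : Type := Res (gr b) (ZG G)

/-- augmentation map on `ℤ[G]` as a module over `ℤ[P]` -/
noncomputable def augE (b : P →* G) : Ext b →ₗ[ZG P] Triv P where
  toFun := fun x => aug G x
  map_add' := fun x y => map_add (aug G) x y
  map_smul' := fun r x => by
    change aug G (gr b r * (id x : ZG G)) = aug P r * aug G (id x : ZG G)
    rw [map_mul, aug_gr]

theorem aug_single {P : Type} [Group P] (p : P) (z : ℤ) :
    aug P (MonoidAlgebra.single p z : ZG P) = z := by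
  have h : (MonoidAlgebra.single p z : ZG P) = z • MonoidAlgebra.of ℤ P p := by
    rw [MonoidAlgebra.of_apply, MonoidAlgebra.smul_single, smul_eq_mul, mul_one]
  rw [h, map_zsmul, aug_of, smul_eq_mul, mul_one]

theorem augE_surj (b : P →* G) : Surjective (augE b) := by
  intro z
  exact ⟨(MonoidAlgebra.single 1 (id z : ℤ) : ZG G), aug_single 1 (id z : ℤ)⟩

/-- right multiplication -/
noncomputable def rmul (b : P →* G) (w : ZG G) : Ext b →ₗ[ZG P] Ext b where
  toFun := fun x => (show ZG G from x) * w
  map_add' := fun x y => add_mul (show ZG G from x) (show ZG G from y) w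
  map_smul' := fun r x => mul_assoc (gr b r) (show ZG G from x) w

theorem rmul_apply (b : P →* G) (w : ZG G) (x : Ext b) :
    rmul b w x = (show Ext b from (show ZG G from x) * w) := rfl

/-- the operators -/
noncomputable def ops {Y : Type} (b : P →* G) (py : Y → P) : Y → Ext b →ₗ[ZG P] Ext b :=
  fun y => rmul b (MonoidAlgebra.of ℤ G (b (py y))⁻¹)

variable {N : Type} [Group N]

/-- the map from the trivial module -/
noncomputable def iotaT (N : Type) [Group N] (b : P →* G) : Triv N →+ Ext b where
  toFun := fun m => (show ZG G from MonoidAlgebra.single 1 (show ℤ from m))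
  map_zero' := MonoidAlgebra.single_zero _
  map_add' := fun x y => MonoidAlgebra.single_add _ _ _

theorem act_triv (n : N) (m : Triv N) : act n m = m := by
  change aug N (MonoidAlgebra.of ℤ N n) * (show ℤ from m) = m
  rw [aug_of, one_mul]

theorem act_iota (b : P →* G) (p : P) (m : Triv N) :
    act p (iotaT N b m) = (show Ext b from (MonoidAlgebra.single (b p) (show ℤ from m) : ZG G)) := by
  change gr b (MonoidAlgebra.of ℤ P p) * (MonoidAlgebra.single 1 (show ℤ from m) : ZG G) = _
  rw [mapDomain_of, MonoidAlgebra.of_apply, MonoidAlgebra.single_mul_single, mul_one, one_mul]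

theorem isInd_triv (j : N →* P) (b : P →* G) (hb : Surjective b) (hjb : b.ker = j.range) :
    IsInd j (iotaT N b) := by
  refine ⟨?_, ?_, ?_⟩
  · intro n m
    rw [act_triv, act_iota]
    have : b (j n) = 1 := by
      have : j n ∈ b.ker := by rw [hjb]; exact ⟨n, rfl⟩
      exact this
    rw [this]
    rfl
  · intro S hS a
    let T : AddSubgroup (ZG G) := S
    have := zg_induction T (fun g => by
      obtain ⟨p, rfl⟩ := hb g
      have := hS p (show Triv N from (1 : ℤ))
      rw [act_iota] at this
      exact this) a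
    exact this
  · refine ⟨{ toFun := fun x => (show Triv N from ((show ZG G from x).coeff 1 : ℤ)),
              map_zero' := rfl, map_add' := fun x y => rfl }, ?_, ?_⟩
    · intro m
      have h : ∀ z : ℤ, ((MonoidAlgebra.single 1 z : ZG G).coeff 1 : ℤ) = z := by
        intro z
        rw [MonoidAlgebra.coeff_single, Finsupp.single_eq_same]
      exact h (id m : ℤ)
    · intro p hp m
      rw [act_iota]
      change ((MonoidAlgebra.single (b p) (show ℤ from m) : ZG G).coeff 1 : ℤ) = 0
      have : b p ≠ 1 := by
        intro h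
        apply hp
        rw [← hjb]
        exact h
      rw [MonoidAlgebra.coeff_single, Finsupp.single_eq_of_ne this.symm]

theorem ops_iota {Y : Type} (b : P →* G) (py : Y → P) (y : Y) (m : Triv N) :
    ops b py y (iotaT N b m) = act (py y)⁻¹ (iotaT N b m) := by
  rw [act_iota, map_inv]
  change (MonoidAlgebra.single 1 (show ℤ from m) : ZG G) * MonoidAlgebra.of ℤ G (b (py y))⁻¹ = _
  rw [MonoidAlgebra.of_apply, MonoidAlgebra.single_mul_single, mul_one, one_mul]

theorem aug_ops {Y : Type} (b : P →* G) (py : Y → P) (y : Y) (x : Ext b) :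
    augE b (ops b py y x) = augE b x := by
  change aug G ((show ZG G from x) * MonoidAlgebra.of ℤ G (b (py y))⁻¹) = aug G x
  rw [map_mul, aug_of, mul_one]

theorem augE_opmap {Y : Type} [Fintype Y] (b : P →* G) (py : Y → P) (x : Y → Ext b) :
    augE b (opmap (ops b py) x) = 0 := by
  rw [opmap_apply, map_sum]
  refine Finset.sum_eq_zero fun y _ => ?_
  rw [map_sub, aug_ops, sub_self]

/-- the augmentation ideal is generated by the `q_y⁻¹ - 1` -/
theorem ker_augE {Y : Type} [Fintype Y] (b : P →* G) (hb : Surjective b) (py : Y → P)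
    (hgen : Submonoid.closure (Set.range py) = ⊤) :
    LinearMap.ker (augE b) = LinearMap.range (opmap (ops b py)) := by
  apply le_antisymm
  · let I : AddSubgroup (ZG G) := (LinearMap.range (opmap (ops b py))).toAddSubgroup
    have hy : ∀ y, (MonoidAlgebra.of ℤ G (b (py y))⁻¹ - 1 : ZG G) ∈ I := by
      intro y
      classical
      refine ⟨Pi.single y (id (1 : ZG G) : Ext b), ?_⟩
      rw [opmap_apply, Finset.sum_eq_single y]
      · rw [Pi.single_eq_same]
        have h : (1 : ZG G) * MonoidAlgebra.of ℤ G (b (py y))⁻¹ - 1 =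
            MonoidAlgebra.of ℤ G (b (py y))⁻¹ - 1 := by rw [one_mul]
        exact h
      · intro z _ hz
        rw [Pi.single_eq_of_ne hz, map_zero, sub_zero]
      · intro h
        exact absurd (Finset.mem_univ y) h
    have hact : ∀ (p : P) (x : ZG G), x ∈ I → MonoidAlgebra.of ℤ G (b p) * x ∈ I := by
      intro p x hx
      have h1 : (gr b (MonoidAlgebra.of ℤ P p) * x : ZG G) ∈ I :=
        act_mem (LinearMap.range (opmap (ops b py))) p hx
      rwa [mapDomain_of] at h1
    have hall : ∀ p : P, (MonoidAlgebra.of ℤ G (b p)⁻¹ - 1 : ZG G) ∈ I := by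
      intro p
      have hp : p ∈ Submonoid.closure (Set.range py) := by rw [hgen]; trivial
      induction hp using Submonoid.closure_induction with
      | mem x hx =>
        obtain ⟨y, rfl⟩ := hx
        exact hy y
      | one =>
        rw [map_one, inv_one, map_one, sub_self]
        exact I.zero_mem
      | mul x y _ _ hx hy =>
        have h1 := hact y⁻¹ _ hx
        have h2 := I.add_mem h1 hy
        have h3 : (MonoidAlgebra.of ℤ G (b (x * y))⁻¹ - 1 : ZG G) =
          MonoidAlgebra.of ℤ G (b y⁻¹) * (MonoidAlgebra.of ℤ G (b x)⁻¹ - 1) +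
            (MonoidAlgebra.of ℤ G (b y)⁻¹ - 1) := by
          rw [mul_sub, ← map_mul, mul_one, map_mul b, mul_inv_rev, map_inv]
          abel
        rw [h3]
        exact h2
    have hall' : ∀ g : G, (MonoidAlgebra.of ℤ G g - 1 : ZG G) ∈ I := by
      intro g
      obtain ⟨p, hp⟩ := hb g⁻¹
      have := hall p
      rwa [hp, inv_inv] at this
    -- every element is congruent to its augmentation
    have key : ∀ x : ZG G, x - (aug G x) • (1 : ZG G) ∈ I := by
      intro x
      let S : AddSubgroup (ZG G) :=
        { carrier := {x | x - (aug G x) • (1 : ZG G) ∈ I}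
          add_mem' := by
            intro x y hx hy
            simp only [Set.mem_ofPred_eq] at hx hy ⊢
            have := I.add_mem hx hy
            have h3 : x + y - (aug G (x + y)) • (1 : ZG G) =
              (x - (aug G x) • (1 : ZG G)) + (y - (aug G y) • (1 : ZG G)) := by
              rw [map_add, add_smul]
              abel
            rw [h3]
            exact this
          zero_mem' := by
            simp only [Set.mem_ofPred_eq, map_zero, zero_smul, sub_zero]
            exact I.zero_mem
          neg_mem' := by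
            intro x hx
            simp only [Set.mem_ofPred_eq] at hx ⊢
            have := I.neg_mem hx
            have h3 : -x - (aug G (-x)) • (1 : ZG G) = -(x - (aug G x) • (1 : ZG G)) := by
              rw [map_neg, neg_smul]
              abel
            rw [h3]
            exact this }
      refine zg_induction S (fun g => ?_) x
      change MonoidAlgebra.of ℤ G g -
        (aug G (MonoidAlgebra.of ℤ G g)) • (1 : ZG G) ∈ I
      rw [aug_of, one_smul]
      exact hall' g
    intro x hx
    have h1 : aug G (id x : ZG G) = 0 := hx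
    have h2 := key (id x : ZG G)
    rw [h1, zero_smul, sub_zero] at h2
    exact h2
  · rintro _ ⟨x, rfl⟩
    exact augE_opmap b py x

end triv

section main

variable {R : Type} [Ring R]

theorem FGF.self : FGF R R := ⟨1, ⟨(LinearEquiv.funUnique (Fin 1) R R).symm⟩⟩

variable {G : Type} [Group G]

theorem gr_id (r : ZG G) : gr (MonoidHom.id G) r = r := by
  change MonoidAlgebra.mapDomainRingHom ℤ (MonoidHom.id G) r = r
  rw [MonoidAlgebra.mapDomainRingHom_id]
  rfl

/-- `ℤ[G]` over itself -/
noncomputable def extId : ZG G ≃ₗ[ZG G] Ext (MonoidHom.id G) where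
  toFun := fun x => x
  map_add' := fun x y => rfl
  map_smul' := fun r x => by
    change r * x = gr (MonoidHom.id G) r * x
    rw [gr_id]
  invFun := fun x => x
  left_inv := fun x => rfl
  right_inv := fun x => rfl

variable {P : Type} [Group P]

/-- comparison of the kernels of the augmentations over the two group rings -/
noncomputable def kerAugEquiv (b : P →* G) :
    Res (gr b) (LinearMap.ker (augE (MonoidHom.id G))) ≃ₗ[ZG P] LinearMap.ker (augE b) where
  toFun := fun x => ⟨(x : LinearMap.ker (augE (MonoidHom.id G))).1,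
    (x : LinearMap.ker (augE (MonoidHom.id G))).2⟩
  map_add' := fun x y => rfl
  map_smul' := fun r x => by
    apply Subtype.ext
    change gr (MonoidHom.id G) (gr b r) * _ = gr b r * _
    rw [gr_id]
  invFun := fun x => (⟨x.1, x.2⟩ : LinearMap.ker (augE (MonoidHom.id G)))
  left_inv := fun x => rfl
  right_inv := fun x => rfl

theorem opmap_eq {Y : Type} [Fintype Y] (b : P →* G) (py : Y → P) (x : Y → ZG G) :
    (id (opmap (ops b py) x) : ZG G) =
      ∑ y, (x y * MonoidAlgebra.of ℤ G (b (py y))⁻¹ - x y) := by
  have h := opmap_apply (ops b py) (id x : Y → Ext b)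
  exact h

theorem mem_ker_opmap {Y : Type} [Fintype Y] (b : P →* G) (py : Y → P) (x : Y → ZG G) :
    (id x : Y → Ext b) ∈ LinearMap.ker (opmap (ops b py)) ↔
      ∑ y, (x y * MonoidAlgebra.of ℤ G (b (py y))⁻¹ - x y) = 0 := by
  rw [← opmap_eq]
  exact Iff.rfl

/-- comparison of the kernels of the operator maps -/
noncomputable def kerOpEquiv {Y : Type} [Fintype Y] (b : P →* G) (py : Y → P) :
    Res (gr b) (LinearMap.ker (opmap (ops (MonoidHom.id G) (fun y => b (py y))))) ≃ₗ[ZG P]
      LinearMap.ker (opmap (ops b py)) where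
  toFun := fun x => ⟨(x : LinearMap.ker (opmap (ops (MonoidHom.id G) (fun y => b (py y))))).1, by
    have h := (id x : LinearMap.ker (opmap (ops (MonoidHom.id G) (fun y => b (py y))))).2
    exact (mem_ker_opmap b py _).2 ((mem_ker_opmap (MonoidHom.id G) (fun y => b (py y)) _).1 h)⟩
  map_add' := fun x y => rfl
  map_smul' := fun r x => by
    apply Subtype.ext
    funext y
    change gr (MonoidHom.id G) (gr b r) * _ = gr b r * _
    rw [gr_id]
  invFun := fun x => (⟨x.1, by
    have h := x.2
    exact (mem_ker_opmap (MonoidHom.id G) (fun y => b (py y)) _).2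
      ((mem_ker_opmap b py _).1 h)⟩ :
      LinearMap.ker (opmap (ops (MonoidHom.id G) (fun y => b (py y)))))
  left_inv := fun x => rfl
  right_inv := fun x => rfl

theorem fps_ker_augE (b : P →* G) {n : ℕ} (hE : FPs (ZG P) n (Ext b))
    (hG : FPs (ZG G) (n + 1) (Triv G)) : FPs (ZG P) n (LinearMap.ker (augE b)) := by
  have h1 : FPs (ZG G) n (LinearMap.ker (augE (MonoidHom.id G))) :=
    FPs.ker_of_cover (FGF.self.equiv extId) hG _ (augE_surj _)
  exact FPs.equiv (kerAugEquiv b) (FPs.res (gr b) hE n le_rfl h1)

theorem fps_ker_op {Y : Type} [Fintype Y] (b : P →* G) (hb : Surjective b) (py : Y → P)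
    (hgen : Submonoid.closure (Set.range py) = ⊤) {n : ℕ} (hE : FPs (ZG P) n (Ext b))
    (hG : FPs (ZG G) (n + 2) (Triv G)) : FPs (ZG P) n (LinearMap.ker (opmap (ops b py))) := by
  have hgen' : Submonoid.closure (Set.range (fun y => b (py y))) = ⊤ := by
    have : Set.range (fun y => b (py y)) = b '' Set.range py := (Set.range_comp b py)
    rw [this, ← MonoidHom.map_mclosure, hgen]
    rw [← MonoidHom.mrange_eq_map]
    exact MonoidHom.mrange_eq_top.2 hb
  have h1 : FPs (ZG G) (n + 1) (LinearMap.ker (augE (MonoidHom.id G))) :=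
    FPs.ker_of_cover (FGF.self.equiv extId) hG _ (augE_surj _)
  have h2 := ker_augE (MonoidHom.id G) surjective_id (fun y => b (py y)) hgen'
  let F : (Y → Ext (MonoidHom.id G)) →ₗ[ZG G] LinearMap.ker (augE (MonoidHom.id G)) :=
    (opmap (ops (MonoidHom.id G) (fun y => b (py y)))).codRestrict _ (augE_opmap _ _)
  have hF : Surjective F := by
    rintro ⟨x, hx⟩
    rw [h2] at hx
    obtain ⟨z, rfl⟩ := hx
    exact ⟨z, rfl⟩
  have h3 : FPs (ZG G) n (LinearMap.ker F) :=
    FPs.ker_of_cover (FGF.self.equiv extId).pi h1 F hF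
  have h4 : LinearMap.ker F = LinearMap.ker (opmap (ops (MonoidHom.id G) (fun y => b (py y)))) :=
    LinearMap.ker_codRestrict _ _ _
  rw [h4] at h3
  exact FPs.equiv (kerOpEquiv b py) (FPs.res (gr b) hE n le_rfl h3)

/-- The homological theorem. -/
theorem main_fp {N P G Γ Q : Type} [Group N] [Group P] [Group G] [Group Γ] [Group Q]
    (j : N →* P) (π : P →* G) (b : P →* Γ) (c : G →* Q) (hπ : Surjective π) (hb : Surjective b)
    (hc : Surjective c) (hj : Injective (π.comp j)) (hjb : b.ker = j.range)
    (hjc : c.ker = (π.comp j).range) (hP : Group.FG P)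
    (hK : π.ker.IsFinitelyNormallyGenerated) (n : ℕ)
    (hN : FPs (ZG N) (n + 1) (Triv N)) (hG : FPs (ZG G) (n + 2) (Triv G))
    (hQ : FPs (ZG Q) (n + 3) (Triv Q)) (hΓ : FPs (ZG Γ) (n + 2) (Triv Γ)) :
    FPs (ZG P) (n + 2) (Triv P) := by
  have hj0 : Injective j := fun x y hxy => hj (by simp [hxy])
  -- generators
  obtain ⟨T, hT⟩ := hP.out
  obtain ⟨S, hSf, hS⟩ := hK
  have := hSf.fintype
  let Y : Type := (T ⊕ T) ⊕ S
  let py : Y → P := Sum.elim (Sum.elim (fun t => t) (fun t => (t : P)⁻¹)) (fun s => s)
  let Y2 : Set Y := Set.range Sum.inr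
  have hgen : Submonoid.closure (Set.range py) = ⊤ := by
    rw [eq_top_iff]
    have h1 : (Subgroup.closure (T : Set P)).toSubmonoid = ⊤ := by rw [hT]; rfl
    rw [← h1, Subgroup.closure_toSubmonoid]
    apply Submonoid.closure_mono
    rintro x (hx | hx)
    · exact ⟨Sum.inl (Sum.inl ⟨x, hx⟩), rfl⟩
    · exact ⟨Sum.inl (Sum.inr ⟨x⁻¹, hx⟩), inv_inv x⟩
  have hnorm' : ∀ p n, ∃ n', j n' = p * j n * p⁻¹ := by
    intro p n
    have h1 : p * j n * p⁻¹ ∈ b.ker := b.normal_ker.conj_mem _ (by rw [hjb]; exact ⟨n, rfl⟩) _
    rw [hjb] at h1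
    exact h1
  have hY2im : py '' Y2 = S := by
    ext x
    constructor
    · rintro ⟨_, ⟨s, rfl⟩, rfl⟩
      exact s.2
    · intro hx
      exact ⟨_, ⟨⟨x, hx⟩, rfl⟩, rfl⟩
  have hSker : ∀ s ∈ S, π s = 1 := by
    intro s hs
    have : s ∈ π.ker := by rw [← hS]; exact Subgroup.subset_normalClosure hs
    exact this
  have hY2 : ∀ y ∈ Y2, π (py y) = 1 := by
    rintro _ ⟨s, rfl⟩
    exact hSker s s.2
  have hcomm : ∀ y ∈ Y2, ∀ n, py y * j n = j n * py y := by
    intro y hy n
    obtain ⟨n', hn'⟩ := hnorm' (py y) n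
    have h1 : π (j n') = π (j n) := by
      rw [hn', map_mul, map_mul, map_inv, hY2 y hy]
      simp
    have h2 : n' = n := hj h1
    rw [h2] at hn'
    exact (eq_mul_inv_iff_mul_eq.1 hn').symm
  have hKle : π.ker ≤ Subgroup.normalClosure (py '' Y2) := by
    rw [hY2im, hS]
  -- the modules
  have hEb : FPs (ZG P) (n + 1) (Ext b) := FPs.ind hj0 (n + 1) (isInd_triv j b hb hjb) hN
  have hEc : FPs (ZG G) (n + 1) (Ext c) := FPs.ind hj (n + 1) (isInd_triv (π.comp j) c hc hjc) hN
  have hgenG : Submonoid.closure (Set.range (fun y => π (py y))) = ⊤ := by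
    have : Set.range (fun y => π (py y)) = π '' Set.range py := (Set.range_comp π py)
    rw [this, ← MonoidHom.map_mclosure, hgen]
    rw [← MonoidHom.mrange_eq_map]
    exact MonoidHom.mrange_eq_top.2 hπ
  have hSG : SFP (n + 1) (opmap (ops c (fun y => π (py y)))) := by
    refine SFP.of_coker _ (augE c) (augE_surj c) (ker_augE c hc _ hgenG) ?_ hG
    exact fps_ker_op c hc _ hgenG hEc hQ
  have hSP : SFP (n + 1) (opmap (ops b py)) := by
    refine transfer hπ hj py hgen (fun y n => hnorm' _ n) Y2 hY2 hcomm hKle (n + 1)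
      (isInd_triv j b hb hjb) (isInd_triv (π.comp j) c hc hjc) (ops b py)
      (ops c (fun y => π (py y))) ?_ ?_ hN hSG
    · intro y m
      exact ⟨m, ops_iota b py y m, ops_iota c (fun y => π (py y)) y m⟩
    · intro y hy m
      refine ⟨ops_iota b py y m, ?_⟩
      rw [ops_iota, hY2 y hy, inv_one, act_one]
  exact SFP.quot _ (augE b) (augE_surj b) (augE_opmap b py) hSP (fps_ker_augE b hEb hΓ)
    (FPs.pi hEb)

end main

end Pool.Agent.W386
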