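import Pool.Agent.W386.VN
import Pool.Agent.W386.Main

set_option autoImplicit false

/-!
# Passing to subgroups of finite index
-/

namespace Pool.Agent.W386

open Function

/-- finitely generated virtually nilpotent groups are finitely presented -/
theorem fp_of_vn {Q : Type} [Group Q] (hQ : Group.FG Q) (h : Group.IsVirtuallyNilpotent Q) :
    Group.IsFinitelyPresented Q := by
  obtain ⟨H, hn, hi⟩ := h
  have hK : Group.IsNilpotent H.normalCore := by
    have h1 : Group.IsNilpotent (H.normalCore.subgroupOf H) := inferInstance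
    exact (Group.isNilpotent_congr
      (Subgroup.subgroupOfEquivOfLe (Subgroup.normalCore_le H))).1 h1
  have hfi : (H.normalCore).FiniteIndex := inferInstance
  have : Group.FG H.normalCore := Subgroup.fg_of_index_ne_zero _
  have h1 : Group.IsFinitelyPresented H.normalCore :=
    Helper294.HallC.pc_fp (pc_of_nil this hK)
  have h2 : Finite (Q ⧸ H.normalCore) := inferInstance
  have h3 : Group.IsFinitelyPresented (Q ⧸ H.normalCore) := inferInstance
  refine fp_ext H.normalCore.subtype Subtype.val_injective (QuotientGroup.mk' H.normalCore)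
    (QuotientGroup.mk'_surjective H.normalCore) ?_ h1 h3
  rw [QuotientGroup.ker_mk', Subgroup.range_subtype]

section finidx

variable {G : Type} [Group G] (H : Subgroup G)

theorem rightMul_inj (g : G) : Injective (fun h : H => (h : G) * g) := by
  intro x y hxy
  exact Subtype.ext (mul_right_cancel hxy)

/-- the free `ℤH`-module on representatives of the right cosets, inside `ℤG` -/
noncomputable def cosetMap (C : Type) [Fintype C] (rep : C → G) :
    (C → ZG H) →ₗ[ZG H] Res (gr H.subtype) (ZG G) where
  toFun := fun x => (∑ c, gr H.subtype (x c) * MonoidAlgebra.of ℤ G (rep c) : ZG G)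
  map_add' := fun x y => by
    change (∑ c, gr H.subtype ((x + y) c) * MonoidAlgebra.of ℤ G (rep c) : ZG G) = _ + _
    rw [← Finset.sum_add_distrib]
    refine Finset.sum_congr rfl fun c _ => ?_
    rw [Pi.add_apply, map_add, add_mul]
  map_smul' := fun r x => by
    change (∑ c, gr H.subtype (r * x c) * MonoidAlgebra.of ℤ G (rep c) : ZG G) =
      gr H.subtype r * (∑ c, gr H.subtype (x c) * MonoidAlgebra.of ℤ G (rep c) : ZG G)
    rw [Finset.mul_sum]
    refine Finset.sum_congr rfl fun c _ => ?_
    rw [map_mul, mul_assoc]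

/-- the inverse -/
noncomputable def cosetInv (C : Type) (rep : C → G) : ZG G →+ (C → ZG H) where
  toFun := fun x c => MonoidAlgebra.comapDomain (fun h : H => (h : G) * rep c)
    (rightMul_inj H (rep c)) x
  map_zero' := by
    funext c
    exact MonoidAlgebra.comapDomain_zero _ _
  map_add' := fun x y => by
    funext c
    exact MonoidAlgebra.comapDomain_add _ _ _ _

theorem cosetInv_of (C : Type) [DecidableEq C] (rep : C → G)
    (hrep : ∀ c c' (h h' : H), (h : G) * rep c = h' * rep c' → c = c') (c : C) (h : H) :
    cosetInv H C rep (MonoidAlgebra.of ℤ G ((h : G) * rep c)) =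
      Pi.single c (MonoidAlgebra.of ℤ H h) := by
  funext c'
  change MonoidAlgebra.comapDomain (fun h : H => (h : G) * rep c') (rightMul_inj H (rep c'))
    (MonoidAlgebra.single ((h : G) * rep c) 1) = _
  by_cases hc : c' = c
  · subst hc
    rw [Pi.single_eq_same]
    exact MonoidAlgebra.comapDomain_single_map (fun h : H => (h : G) * rep c')
      (rightMul_inj H (rep c')) h 1
  · rw [Pi.single_eq_of_ne hc]
    apply MonoidAlgebra.comapDomain_single_of_not_mem_range
    rintro ⟨h', hh'⟩
    exact hc (hrep _ _ _ _ hh')

theorem cosetMap_single (C : Type) [Fintype C] [DecidableEq C] (rep : C → G) (c : C)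
    (r : ZG H) : cosetMap H C rep (Pi.single c r) =
      (gr H.subtype r * MonoidAlgebra.of ℤ G (rep c) : ZG G) := by
  change (∑ c', gr H.subtype ((Pi.single c r : C → ZG H) c') *
    MonoidAlgebra.of ℤ G (rep c') : ZG G) = _
  rw [Finset.sum_eq_single c]
  · rw [Pi.single_eq_same]
  · intro c' _ hc
    rw [Pi.single_eq_of_ne hc, map_zero, zero_mul]
  · intro h
    exact absurd (Finset.mem_univ c) h

theorem cosetInv_map (C : Type) [Fintype C] [DecidableEq C] (rep : C → G)
    (hrep : ∀ c c' (h h' : H), (h : G) * rep c = h' * rep c' → c = c') (x : C → ZG H) :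
    cosetInv H C rep (id (cosetMap H C rep x) : ZG G) = x := by
  rw [← Finset.univ_sum_single x]
  have h0 : (id (cosetMap H C rep (∑ c, Pi.single c (x c))) : ZG G) =
      ∑ c, (id (cosetMap H C rep (Pi.single c (x c))) : ZG G) :=
    map_sum (cosetMap H C rep) _ _
  rw [h0, map_sum]
  refine Finset.sum_congr rfl fun c _ => ?_
  let S : AddSubgroup (ZG H) :=
    { carrier := {r | cosetInv H C rep (id (cosetMap H C rep (Pi.single c r)) : ZG G) =
        Pi.single c r}
      add_mem' := by
        intro x y hx hy
        simp only [Set.mem_ofPred_eq] at hx hy ⊢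
        have h1 : (id (cosetMap H C rep (Pi.single c (x + y))) : ZG G) =
            (id (cosetMap H C rep (Pi.single c x)) : ZG G) +
            (id (cosetMap H C rep (Pi.single c y)) : ZG G) := by
          rw [Pi.single_add]
          exact map_add (cosetMap H C rep) _ _
        rw [h1, map_add, hx, hy, Pi.single_add]
      zero_mem' := by
        simp only [Set.mem_ofPred_eq]
        rw [Pi.single_zero]
        have h1 : (id (cosetMap H C rep 0) : ZG G) = 0 := map_zero (cosetMap H C rep)
        rw [h1, map_zero]
      neg_mem' := by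
        intro x hx
        simp only [Set.mem_ofPred_eq] at hx ⊢
        have h1 : (id (cosetMap H C rep (Pi.single c (-x))) : ZG G) =
            -(id (cosetMap H C rep (Pi.single c x)) : ZG G) := by
          rw [Pi.single_neg]
          exact map_neg (cosetMap H C rep) _
        rw [h1, map_neg, hx, Pi.single_neg] }
  refine zg_induction S (fun h => ?_) (x c)
  change cosetInv H C rep (id (cosetMap H C rep (Pi.single c (MonoidAlgebra.of ℤ H h))) : ZG G) = _
  rw [cosetMap_single, mapDomain_of]
  have h2 : (id (MonoidAlgebra.of ℤ G (H.subtype h) * MonoidAlgebra.of ℤ G (rep c) : ZG G) : ZG G)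
      = MonoidAlgebra.of ℤ G ((h : G) * rep c) := (map_mul _ _ _).symm
  rw [h2, cosetInv_of H C rep hrep]

theorem fps_restrict [hH : H.FiniteIndex] (n : ℕ) :
    FPs (ZG H) n (Res (gr H.subtype) (ZG G)) := by
  classical
  have hfin : Finite (G ⧸ H) := inferInstance
  have hf := Fintype.ofFinite (G ⧸ H)
  let C : Type := G ⧸ H
  let rep : C → G := fun c => (Quotient.out c)⁻¹
  have hrep : ∀ c c' (h h' : H), (h : G) * rep c = h' * rep c' → c = c' := by
    intro c c' h h' hh
    have h1 : (QuotientGroup.mk (rep c)⁻¹ : G ⧸ H) = QuotientGroup.mk (rep c')⁻¹ := by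
      rw [QuotientGroup.eq]
      have : (rep c)⁻¹⁻¹ * (rep c')⁻¹ = (h : G)⁻¹ * h' := by
        rw [inv_inv, eq_inv_mul_iff_mul_eq, ← mul_assoc, hh, mul_inv_cancel_right]
      rw [this]
      exact H.mul_mem (H.inv_mem h.2) h'.2
    simp only [rep, inv_inv] at h1
    rw [← Quotient.out_eq c, ← Quotient.out_eq c']
    exact h1
  have hsurj : Surjective (cosetMap H C rep) := by
    intro x
    let S : AddSubgroup (ZG G) := (LinearMap.range (cosetMap H C rep)).toAddSubgroup
    refine zg_induction S (fun g => ?_) (id x : ZG G)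
    have h1 : ((Quotient.out (QuotientGroup.mk g⁻¹ : G ⧸ H) : G))⁻¹ * g⁻¹ ∈ H := by
      rw [← QuotientGroup.eq]
      exact Quotient.out_eq _
    refine ⟨Pi.single (QuotientGroup.mk g⁻¹ : G ⧸ H) (MonoidAlgebra.of ℤ H ⟨_, H.inv_mem h1⟩), ?_⟩
    rw [cosetMap_single, mapDomain_of]
    change (MonoidAlgebra.of ℤ G _ * MonoidAlgebra.of ℤ G _ : ZG G) = _
    rw [← map_mul]
    congr 1
    simp [rep]
  have hinj : Injective (cosetMap H C rep) := by
    intro x y hxy
    rw [← cosetInv_map H C rep hrep x, ← cosetInv_map H C rep hrep y, hxy]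
  have e := LinearEquiv.ofBijective (cosetMap H C rep) ⟨hinj, hsurj⟩
  exact FPs.equiv e (FPs.of_fgf ((FGF.self).pi) n)

/-- finiteness properties pass to subgroups of finite index -/
theorem fps_finiteIndex [hH : H.FiniteIndex] (n : ℕ) (h : FPs (ZG G) n (Triv G)) :
    FPs (ZG H) n (Triv H) := by
  have h1 := FPs.res (gr H.subtype) (fps_restrict H n) n le_rfl h
  refine FPs.equiv ?_ h1
  exact
    { toFun := fun x => x
      map_add' := fun x y => rfl
      map_smul' := fun r x => by
        change aug G (gr H.subtype r) * (id x : ℤ) = aug H r * (id x : ℤ)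
        rw [aug_gr]
      invFun := fun x => x
      left_inv := fun x => rfl
      right_inv := fun x => rfl }

end finidx

end Pool.Agent.W386
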