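import Pool.Agent.W386.SFP

set_option autoImplicit false

/-!
# Induced modules over group rings
-/

namespace Pool.Agent.W386

open Function

/-- integral group ring -/
abbrev ZG (P : Type) : Type := MonoidAlgebra ℤ P

section act

variable {P : Type} [Group P] {A B : Type} [AddCommGroup A] [Module (ZG P) A]
  [AddCommGroup B] [Module (ZG P) B]

/-- the action of a group element -/
noncomputable def act (p : P) (a : A) : A := (MonoidAlgebra.of ℤ P p) • a

theorem act_one (a : A) : act (1 : P) a = a := by
  rw [act, map_one, one_smul]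

theorem act_mul (p q : P) (a : A) : act (p * q) a = act p (act q a) := by
  rw [act, map_mul, mul_smul]; rfl

theorem act_add (p : P) (a b : A) : act p (a + b) = act p a + act p b := smul_add _ _ _

theorem act_sub (p : P) (a b : A) : act p (a - b) = act p a - act p b := smul_sub _ _ _

theorem act_zero (p : P) : act p (0 : A) = 0 := smul_zero _

theorem map_act (f : A →ₗ[ZG P] B) (p : P) (a : A) : f (act p a) = act p (f a) := f.map_smul _ _

theorem act_inv_act (p : P) (a : A) : act p⁻¹ (act p a) = a := by
  rw [← act_mul, inv_mul_cancel, act_one]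

theorem act_act_inv (p : P) (a : A) : act p (act p⁻¹ a) = a := by
  rw [← act_mul, mul_inv_cancel, act_one]

theorem act_mem (S : Submodule (ZG P) A) (p : P) {a : A} (h : a ∈ S) : act p a ∈ S :=
  S.smul_mem _ h

theorem act_coe (S : Submodule (ZG P) A) (p : P) (a : S) : ((act p a : S) : A) = act p (a : A) :=
  rfl

/-- `act` as an additive map -/
noncomputable def actHom (p : P) : A →+ A := DistribSMul.toAddMonoidHom A (MonoidAlgebra.of ℤ P p)

@[simp] theorem actHom_apply (p : P) (a : A) : actHom p a = act p a := rfl

theorem zg_induction (S : AddSubgroup (ZG P)) (h : ∀ p : P, MonoidAlgebra.of ℤ P p ∈ S)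
    (r : ZG P) : r ∈ S := by
  induction r using MonoidAlgebra.induction_on with
  | of m => exact h m
  | add x y hx hy => exact S.add_mem hx hy
  | smul z x hx =>
    exact S.zsmul_mem hx z

/-- additive maps commuting with the action are linear -/
theorem smul_of_act {f : A →+ B} (h : ∀ (p : P) (a : A), f (act p a) = act p (f a)) (r : ZG P)
    (a : A) : f (r • a) = r • f a := by
  let S : AddSubgroup (ZG P) :=
    { carrier := {r | f (r • a) = r • f a}
      add_mem' := by
        intro x y hx hy
        simp only [Set.mem_ofPred_eq] at hx hy ⊢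
        rw [add_smul, add_smul, map_add, hx, hy]
      zero_mem' := by simp
      neg_mem' := by
        intro x hx
        simp only [Set.mem_ofPred_eq] at hx ⊢
        rw [neg_smul, neg_smul, map_neg, hx] }
  exact zg_induction S (fun p => h p a) r

/-- additive subgroups stable under the action are submodules -/
def submoduleOf (S : AddSubgroup A) (h : ∀ (p : P) (a : A), a ∈ S → act p a ∈ S) :
    Submodule (ZG P) A where
  carrier := S
  add_mem' := fun ha hb => S.add_mem ha hb
  zero_mem' := S.zero_mem
  smul_mem' := by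
    intro r a ha
    let T : AddSubgroup (ZG P) :=
      { carrier := {r | r • a ∈ S}
        add_mem' := by
          intro x y hx hy
          simp only [Set.mem_ofPred_eq] at hx hy ⊢
          rw [add_smul]
          exact S.add_mem hx hy
        zero_mem' := by simp
        neg_mem' := by
          intro x hx
          simp only [Set.mem_ofPred_eq] at hx ⊢
          rw [neg_smul]
          exact S.neg_mem hx }
    exact zg_induction T (fun p => h p a ha) r

end act

/-- `ι : M → A` exhibits `A` as the `ℤP`-module induced from the `ℤN`-module `M` -/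
structure IsInd {N P : Type} [Group N] [Group P] (j : N →* P) {M A : Type} [AddCommGroup M]
    [Module (ZG N) M] [AddCommGroup A] [Module (ZG P) A] (ι : M →+ A) : Prop where
  map : ∀ (n : N) (m : M), ι (act n m) = act (j n) (ι m)
  gen : ∀ S : AddSubgroup A, (∀ (p : P) (m : M), act p (ι m) ∈ S) → ∀ a : A, a ∈ S
  ret : ∃ χ : A →+ M, (∀ m, χ (ι m) = m) ∧ ∀ p : P, p ∉ j.range → ∀ m, χ (act p (ι m)) = 0

section ind

variable {N P : Type} [Group N] [Group P] {j : N →* P} {M A : Type} [AddCommGroup M]
    [Module (ZG N) M] [AddCommGroup A] [Module (ZG P) A] {ι : M →+ A}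

theorem IsInd.inj (h : IsInd j ι) : Injective ι := by
  obtain ⟨χ, h1, -⟩ := h.ret
  intro x y hxy
  rw [← h1 x, hxy, h1]

/-- the canonical additive map -/
noncomputable def Phi (ι : M →+ A) : (P →₀ M) →+ A :=
  Finsupp.liftAddHom (fun p => (actHom p).comp ι)

theorem Phi_single (p : P) (m : M) : Phi ι (Finsupp.single p m) = act p (ι m) := by
  rw [Phi, Finsupp.liftAddHom_apply_single]
  rfl

theorem IsInd.phi_surj (h : IsInd j ι) (a : A) : ∃ x : P →₀ M, Phi ι x = a := by
  have := h.gen (Phi (P := P) ι).range (fun p m => ⟨Finsupp.single p m, Phi_single p m⟩) a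
  exact this

theorem IsInd.map_smul (h : IsInd j ι) (r : ZG N) (m : M) :
    ι (r • m) = (MonoidAlgebra.mapDomainRingHom ℤ j r) • ι m := by
  let S : AddSubgroup (ZG N) :=
    { carrier := {r | ι (r • m) = (MonoidAlgebra.mapDomainRingHom ℤ j r) • ι m}
      add_mem' := by
        intro x y hx hy
        simp only [Set.mem_ofPred_eq] at hx hy ⊢
        rw [add_smul, map_add, map_add, add_smul, hx, hy]
      zero_mem' := by simp
      neg_mem' := by
        intro x hx
        simp only [Set.mem_ofPred_eq] at hx ⊢
        rw [neg_smul, map_neg, map_neg, neg_smul, hx] }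
  refine zg_induction S (fun n => ?_) r
  change ι (act n m) = _
  rw [h.map, act]
  congr 1
  simp [MonoidAlgebra.of_apply, MonoidAlgebra.mapDomainRingHom]

/-- normal form -/
theorem IsInd.nf (h : IsInd j ι) (χ : A →+ M) (h1 : ∀ m, χ (ι m) = m)
    (h2 : ∀ p : P, p ∉ j.range → ∀ m, χ (act p (ι m)) = 0) (x : P →₀ M) :
    ∃ y : P →₀ M, (∀ {X : Type} [AddCommGroup X] (H : P → M →+ X)
        (_ : ∀ p n m, H (p * j n) m = H p (act n m)),
          Finsupp.liftAddHom H x = Finsupp.liftAddHom H y) ∧
      ∀ t, y t = 0 ∨ y t = χ (act t⁻¹ (Phi ι x)) := by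
  classical
  -- coset representatives
  let s : P → P := fun p => (QuotientGroup.mk p : P ⧸ j.range).out
  have hs : ∀ p, (s p)⁻¹ * p ∈ j.range := fun p => by
    rw [← QuotientGroup.eq]
    exact Quotient.out_eq _
  have hs' : ∀ p q, p⁻¹ * q ∈ j.range → s p = s q := fun p q hpq => by
    have : (QuotientGroup.mk p : P ⧸ j.range) = QuotientGroup.mk q := QuotientGroup.eq.2 hpq
    simp only [s, this]
  choose n hn using hs
  let T : (P →₀ M) →+ (P →₀ M) :=
    Finsupp.liftAddHom (fun p => (Finsupp.singleAddHom (s p)).comp (actHom (n p)))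
  have hT : ∀ p m, T (Finsupp.single p m) = Finsupp.single (s p) (act (n p) m) := by
    intro p m
    simp only [T, Finsupp.liftAddHom_apply_single]
    rfl
  refine ⟨T x, ?_, ?_⟩
  · intro X _ H hH
    have : (Finsupp.liftAddHom H : (P →₀ M) →+ X) = (Finsupp.liftAddHom H).comp T := by
      apply Finsupp.addHom_ext
      intro p m
      rw [AddMonoidHom.comp_apply, hT, Finsupp.liftAddHom_apply_single,
        Finsupp.liftAddHom_apply_single, ← hH, hn]
      simp
    exact DFunLike.congr_fun this x
  · intro t
    by_cases ht : s t = t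
    · right
      have : (Finsupp.applyAddHom t).comp T = (χ.comp (actHom t⁻¹)).comp (Phi ι) := by
        apply Finsupp.addHom_ext
        intro p m
        simp only [AddMonoidHom.comp_apply, hT, Phi_single, actHom_apply,
          Finsupp.applyAddHom_apply, ← act_mul]
        by_cases hp : t⁻¹ * p ∈ j.range
        · have hst : s p = t := by rw [← ht]; exact (hs' t p hp).symm
          rw [hst, Finsupp.single_eq_same]
          have : t⁻¹ * p = j (n p) := by rw [hn, hst]
          rw [this, ← h.map, h1]
        · rw [h2 _ hp, Finsupp.single_eq_of_ne]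
          intro hst
          apply hp
          rw [hst]
          exact ⟨n p, hn p⟩
      exact DFunLike.congr_fun this x
    · left
      have : (Finsupp.applyAddHom t).comp T = 0 := by
        apply Finsupp.addHom_ext
        intro p m
        simp only [AddMonoidHom.comp_apply, hT, Finsupp.applyAddHom_apply, AddMonoidHom.zero_apply]
        rw [Finsupp.single_eq_of_ne]
        intro hst
        apply ht
        have h3 : s t = s p := hs' t p (by rw [hst]; exact ⟨n p, hn p⟩)
        rw [h3, hst]
      exact DFunLike.congr_fun this x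

theorem IsInd.lift_eq_zero (h : IsInd j ι) {X : Type} [AddCommGroup X] (H : P → M →+ X)
    (hH : ∀ p n m, H (p * j n) m = H p (act n m)) (x : P →₀ M) (hx : Phi ι x = 0) :
    Finsupp.liftAddHom H x = 0 := by
  obtain ⟨χ, h1, h2⟩ := h.ret
  obtain ⟨y, hy, hy'⟩ := h.nf χ h1 h2 x
  rw [hy H hH]
  have : y = 0 := by
    ext t
    rcases hy' t with h | h
    · exact h
    · rw [h, hx, act_zero, map_zero]; rfl
  rw [this, map_zero]

theorem IsInd.exists_desc (h : IsInd j ι) {X : Type} [AddCommGroup X] (H : P → M →+ X)
    (hH : ∀ p n m, H (p * j n) m = H p (act n m)) :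
    ∃ D : A →+ X, ∀ p m, D (act p (ι m)) = H p m := by
  choose x hx using h.phi_surj
  have key : ∀ (y : P →₀ M), Finsupp.liftAddHom H (x (Phi ι y)) = Finsupp.liftAddHom H y := by
    intro y
    have := h.lift_eq_zero H hH (x (Phi ι y) - y) (by rw [map_sub, hx, sub_self])
    rw [map_sub, sub_eq_zero] at this
    exact this
  refine ⟨AddMonoidHom.mk' (fun a => Finsupp.liftAddHom H (x a)) ?_, ?_⟩
  · intro a b
    rw [← map_add, ← key (x a + x b), map_add, hx, hx]
  · intro p m
    change Finsupp.liftAddHom H (x (act p (ι m))) = _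
    rw [← Phi_single, key, Finsupp.liftAddHom_apply_single]

theorem IsInd.recon (h : IsInd j ι) (χ : A →+ M) (h1 : ∀ m, χ (ι m) = m)
    (h2 : ∀ p : P, p ∉ j.range → ∀ m, χ (act p (ι m)) = 0) (a : A) :
    ∃ y : P →₀ M, Phi ι y = a ∧ ∀ t, y t = 0 ∨ y t = χ (act t⁻¹ a) := by
  obtain ⟨x, rfl⟩ := h.phi_surj a
  obtain ⟨y, hy, hy'⟩ := h.nf χ h1 h2 x
  refine ⟨y, ?_, hy'⟩
  have := hy (fun p => (actHom p).comp ι) (by
    intro p n m
    simp only [AddMonoidHom.comp_apply, actHom_apply]
    rw [act_mul, ← h.map])
  exact this.symm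

end ind

section ker

variable {N P : Type} [Group N] [Group P] {j : N →* P} {M A C D : Type} [AddCommGroup M]
    [Module (ZG N) M] [AddCommGroup A] [Module (ZG P) A] {ι : M →+ A}
    [AddCommGroup C] [Module (ZG N) C] [AddCommGroup D] [Module (ZG P) D] {κ : C →+ D}

/-- the restriction of `κ` to kernels -/
def kerHom (f : C →ₗ[ZG N] M) (F : D →ₗ[ZG P] A) (κ : C →+ D) (hF : ∀ c, F (κ c) = ι (f c)) :
    LinearMap.ker f →+ LinearMap.ker F where
  toFun c := ⟨κ c, by
    rw [LinearMap.mem_ker, hF]
    have : f (c : C) = 0 := c.2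
    rw [this, map_zero]⟩
  map_zero' := by
    apply Subtype.ext
    simp
  map_add' x y := by
    apply Subtype.ext
    simp

theorem kerHom_coe (f : C →ₗ[ZG N] M) (F : D →ₗ[ZG P] A) (κ : C →+ D)
    (hF : ∀ c, F (κ c) = ι (f c)) (c : LinearMap.ker f) :
    ((kerHom f F κ hF c : LinearMap.ker F) : D) = κ c := rfl

/-- the kernel of an induced map is induced -/
theorem IsInd.ker (hι : IsInd j ι) (hκ : IsInd j κ) (f : C →ₗ[ZG N] M) (F : D →ₗ[ZG P] A)
    (hF : ∀ c, F (κ c) = ι (f c)) : IsInd j (kerHom f F κ hF) := by
  obtain ⟨χ, h1, h2⟩ := hκ.ret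
  obtain ⟨χ', h1', h2'⟩ := hι.ret
  have hχ : ∀ d, f (χ d) = χ' (F d) := by
    let S : AddSubgroup D :=
      { carrier := {d | f (χ d) = χ' (F d)}
        add_mem' := by
          intro x y hx hy
          simp only [Set.mem_ofPred_eq] at hx hy ⊢
          rw [map_add, map_add, map_add, map_add, hx, hy]
        zero_mem' := by simp
        neg_mem' := by
          intro x hx
          simp only [Set.mem_ofPred_eq] at hx ⊢
          rw [map_neg, map_neg, map_neg, map_neg, hx] }
    refine hκ.gen S ?_
    intro p c
    change f (χ (act p (κ c))) = χ' (F (act p (κ c)))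
    rw [map_act, hF]
    by_cases hp : p ∈ j.range
    · obtain ⟨n, rfl⟩ := hp
      rw [← hκ.map, h1, ← hι.map, h1', map_act]
    · rw [h2 p hp, h2' p hp, map_zero]
  refine ⟨?_, ?_, ?_⟩
  · intro n m
    apply Subtype.ext
    rw [kerHom_coe, act_coe, hκ.map, act_coe, kerHom_coe]
  · intro S hS a
    obtain ⟨y, hy, hy'⟩ := hκ.recon χ h1 h2 (a : D)
    have hk : ∀ t, f (y t) = 0 := by
      intro t
      rcases hy' t with h | h
      · rw [h, map_zero]
      · rw [h, hχ, map_act, a.2, act_zero, map_zero]
    have h3 : (a : D) = ∑ t ∈ y.support, act t (κ (y t)) := by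
      rw [← hy]
      rfl
    have h4 : a = ∑ t ∈ y.support, act t (kerHom f F κ hF ⟨y t, hk t⟩) := by
      apply Subtype.ext
      rw [h3, Submodule.coe_sum]
      rfl
    rw [h4]
    exact S.sum_mem fun t _ => hS t _
  · refine ⟨((χ.comp (LinearMap.ker F).subtype.toAddMonoidHom).codRestrict
      (LinearMap.ker f).toAddSubgroup ?_), ?_, ?_⟩
    · rintro ⟨d, hd⟩
      change f (χ d) = 0
      rw [hχ, hd, map_zero]
    · rintro ⟨c, hc⟩
      apply Subtype.ext
      exact h1 c
    · rintro p hp ⟨c, hc⟩
      apply Subtype.ext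
      exact h2 p hp c

end ker

section free

variable {N P : Type} [Group N] [Group P] (j : N →* P)

/-- the map between free modules -/
noncomputable def freeHom (k : ℕ) : (Fin k → ZG N) →+ (Fin k → ZG P) where
  toFun x := fun s => MonoidAlgebra.mapDomainRingHom ℤ j (x s)
  map_zero' := by
    funext s
    simp
  map_add' x y := by
    funext s
    exact map_add (MonoidAlgebra.mapDomainRingHom ℤ j) (x s) (y s)

theorem freeHom_apply (k : ℕ) (x : Fin k → ZG N) (s : Fin k) :
    freeHom j k x s = MonoidAlgebra.mapDomainRingHom ℤ j (x s) := rfl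

theorem act_apply {k : ℕ} (p : P) (x : Fin k → ZG P) (s : Fin k) :
    (act p x) s = MonoidAlgebra.of ℤ P p * x s := rfl

theorem mapDomain_of (n : N) : MonoidAlgebra.mapDomainRingHom ℤ j (MonoidAlgebra.of ℤ N n) =
    MonoidAlgebra.of ℤ P (j n) := by
  simp [MonoidAlgebra.of_apply, MonoidAlgebra.mapDomainRingHom]

theorem isInd_free (hj : Injective j) (k : ℕ) : IsInd j (freeHom j k) := by
  refine ⟨?_, ?_, ?_⟩
  · intro n x
    funext s
    rw [freeHom_apply, act_apply, act_apply, map_mul, mapDomain_of, freeHom_apply]
  · intro S hS a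
    classical
    rw [← Finset.univ_sum_single a]
    refine S.sum_mem fun s _ => ?_
    let T : AddSubgroup (ZG P) :=
      { carrier := {r | (Pi.single s r : Fin k → ZG P) ∈ S}
        add_mem' := by
          intro x y hx hy
          simp only [Set.mem_ofPred_eq] at hx hy ⊢
          rw [Pi.single_add]
          exact S.add_mem hx hy
        zero_mem' := by simp
        neg_mem' := by
          intro x hx
          simp only [Set.mem_ofPred_eq] at hx ⊢
          rw [Pi.single_neg]
          exact S.neg_mem hx }
    refine zg_induction T (fun p => ?_) (a s)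
    have := hS p (Pi.single s 1)
    change (Pi.single s (MonoidAlgebra.of ℤ P p) : Fin k → ZG P) ∈ S
    convert this using 1
    funext t
    rw [act_apply, freeHom_apply]
    by_cases h : t = s
    · subst h
      simp
    · simp [h]
  · refine ⟨{ toFun := fun x s => MonoidAlgebra.comapDomain j hj (x s), map_zero' := ?_,
              map_add' := ?_ }, ?_, ?_⟩
    · funext s
      simp
    · intro x y
      funext s
      simp
    · intro x
      funext s
      change MonoidAlgebra.comapDomain j hj (MonoidAlgebra.mapDomainRingHom ℤ j (x s)) = x s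
      ext n
      simp [MonoidAlgebra.mapDomainRingHom, MonoidAlgebra.mapDomain,
        Finsupp.mapDomain_apply hj]
    · intro p hp x
      funext s
      change MonoidAlgebra.comapDomain j hj
        (MonoidAlgebra.of ℤ P p * (MonoidAlgebra.mapDomainRingHom ℤ j (x s))) = 0
      ext n
      rw [MonoidAlgebra.coeff_comapDomain, Finsupp.comapDomain_apply, MonoidAlgebra.of_apply,
        MonoidAlgebra.coeff_single_mul_apply]
      have : (MonoidAlgebra.mapDomainRingHom ℤ j (x s)).coeff (p⁻¹ * j n) = 0 := by
        simp only [MonoidAlgebra.mapDomainRingHom, MonoidAlgebra.mapDomain, RingHom.coe_mk,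
          MonoidHom.coe_mk, OneHom.coe_mk]
        apply Finsupp.mapDomain_of_notMem_range
        rintro ⟨n', hn'⟩
        apply hp
        refine ⟨n * n'⁻¹, ?_⟩
        rw [map_mul, map_inv, hn']
        group
      rw [this]
      simp

end free

end Pool.Agent.W386
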