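import Pool.Agent.W386.FinIdx

set_option autoImplicit false

/-!
# Virtual surjection to `k`-tuples
-/

namespace Pool.Agent.W386

open Function
open scoped commutatorElement

set_option linter.unusedSectionVars false

section general

theorem fi_comap {G G' : Type} [Group G] [Group G'] (f : G →* G') (H : Subgroup G')
    [H.FiniteIndex] : (H.comap f).FiniteIndex := by
  refine ⟨?_⟩
  rw [Subgroup.index_comap]
  exact (inferInstance : (H.subgroupOf f.range).FiniteIndex).index_ne_zero

theorem fi_map {G G' : Type} [Group G] [Group G'] (f : G →* G') (hf : Surjective f)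
    (H : Subgroup G) [hH : H.FiniteIndex] : (H.map f).FiniteIndex :=
  ⟨ne_zero_of_dvd_ne_zero hH.index_ne_zero (Subgroup.index_map_dvd H hf)⟩

/-- a quotient with nilpotent image of a finite index subgroup -/
theorem vn_quot {G : Type} [Group G] (L : Subgroup G) [L.Normal] (D : Subgroup G)
    [D.FiniteIndex] (c : ℕ) (h : D.lowerCentralSeries c ≤ L) :
    Group.IsVirtuallyNilpotent (G ⧸ L) := by
  refine ⟨D.map (QuotientGroup.mk' L), ?_,
    fi_map _ (QuotientGroup.mk'_surjective L) D⟩
  apply Subgroup.isNilpotent_of_lowerCentralSeries_eq_bot (n := c)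
  rw [← Subgroup.map_lowerCentralSeries, eq_bot_iff]
  rintro _ ⟨x, hx, rfl⟩
  rw [Subgroup.mem_bot]
  exact (QuotientGroup.eq_one_iff x).2 (h hx)

/-- finite normal generation of a kernel, seen through a jointly injective map -/
theorem ifng_of_map {P G Γ : Type} [Group P] [Group G] [Group Γ] (π : P →* G) (b : P →* Γ)
    (hb : Surjective b) (hinj : ∀ x, π x = 1 → b x = 1 → x = 1)
    (h : (π.ker.map b).IsFinitelyNormallyGenerated) : π.ker.IsFinitelyNormallyGenerated := by
  obtain ⟨S, hSf, hS⟩ := h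
  have hinj' : Set.InjOn b (π.ker : Set P) := by
    intro x hx y hy hxy
    have h1 : π (x * y⁻¹) = 1 := by
      rw [map_mul, map_inv, show π x = 1 from hx, show π y = 1 from hy]; simp
    have h2 : b (x * y⁻¹) = 1 := by rw [map_mul, map_inv, hxy]; simp
    exact mul_inv_eq_one.1 (hinj _ h1 h2)
  let S' : Set P := b ⁻¹' S ∩ π.ker
  have hS'f : S'.Finite := by
    refine Set.Finite.of_finite_image (f := b) (hSf.subset ?_) (hinj'.mono Set.inter_subset_right)
    rintro _ ⟨x, hx, rfl⟩
    exact hx.1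
  refine ⟨S', hS'f, le_antisymm (Subgroup.normalClosure_le_normal Set.inter_subset_right) ?_⟩
  have h1 : (Subgroup.normalClosure S').map b = Subgroup.normalClosure (b '' S') := by
    exact Subgroup.map_normalClosure S' b hb
  have h2 : S ⊆ b '' S' := by
    intro s hs
    have : s ∈ π.ker.map b := by rw [← hS]; exact Subgroup.subset_normalClosure hs
    obtain ⟨x, hx, rfl⟩ := this
    exact ⟨x, ⟨hs, hx⟩, rfl⟩
  intro x hx
  have h3 : b x ∈ (Subgroup.normalClosure S').map b := by
    rw [h1]
    have : b x ∈ Subgroup.normalClosure S := by rw [hS]; exact ⟨x, hx, rfl⟩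
    exact Subgroup.normalClosure_mono h2 this
  obtain ⟨y, hy, hxy⟩ := h3
  have hyk : y ∈ π.ker := Subgroup.normalClosure_le_normal Set.inter_subset_right hy
  rw [← hinj' hyk hx hxy]
  exact hy

/-- finite generation from two quotients -/
theorem fg_of_two {P G Γ : Type} [Group P] [Group G] [Group Γ] (π : P →* G) (hπ : Surjective π)
    (b : P →* Γ) (hb : Surjective b) (hinj : ∀ x, π x = 1 → b x = 1 → x = 1)
    (hG : Group.FG G) (hΓ : Group.FG Γ) (h : π.ker.IsFinitelyNormallyGenerated) :
    Group.FG P := by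
  classical
  obtain ⟨T1, hT1⟩ := hG.out
  obtain ⟨T2, hT2⟩ := hΓ.out
  obtain ⟨S, hSf, hS⟩ := h
  choose l1 hl1 using hπ
  choose l2 hl2 using hb
  let P0 : Subgroup P := Subgroup.closure (l1 '' T1 ∪ l2 '' T2 ∪ S)
  have hf : (l1 '' T1 ∪ l2 '' T2 ∪ S).Finite :=
    ((T1.finite_toSet.image _).union (T2.finite_toSet.image _)).union hSf
  have hP0G : P0.map π = ⊤ := by
    rw [eq_top_iff, ← hT1, Subgroup.closure_le]
    intro t ht
    exact ⟨l1 t, Subgroup.subset_closure (Or.inl (Or.inl ⟨t, ht, rfl⟩)), hl1 t⟩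
  have hP0Γ : P0.map b = ⊤ := by
    rw [eq_top_iff, ← hT2, Subgroup.closure_le]
    intro t ht
    exact ⟨l2 t, Subgroup.subset_closure (Or.inl (Or.inr ⟨t, ht, rfl⟩)), hl2 t⟩
  have hconj : ∀ p : P, ∀ s ∈ S, p * s * p⁻¹ ∈ P0 := by
    intro p s hs
    have : b p ∈ P0.map b := by rw [hP0Γ]; trivial
    obtain ⟨q, hq, hqp⟩ := this
    have hsk : π s = 1 := by
      have : s ∈ π.ker := by rw [← hS]; exact Subgroup.subset_normalClosure hs
      exact this
    have h1 : p * s * p⁻¹ * (q * s * q⁻¹)⁻¹ = 1 := by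
      apply hinj
      · simp only [map_mul, map_inv, hsk]; simp
      · simp only [map_mul, map_inv, hqp]; simp
    rw [mul_inv_eq_one.1 h1]
    exact P0.mul_mem (P0.mul_mem hq (Subgroup.subset_closure (Or.inr hs))) (P0.inv_mem hq)
  have hker : π.ker ≤ P0 := by
    rw [← hS, Subgroup.normalClosure, Subgroup.closure_le]
    intro x hx
    obtain ⟨s, hs, hc⟩ := Group.mem_conjugatesOfSet_iff.1 hx
    obtain ⟨p, hp⟩ := isConj_iff.1 hc
    rw [← hp]
    exact hconj p s hs
  refine ⟨⟨hf.toFinset, ?_⟩⟩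
  rw [Set.Finite.coe_toFinset, eq_top_iff]
  intro x _
  have : π x ∈ P0.map π := by rw [hP0G]; trivial
  obtain ⟨y, hy, hyx⟩ := this
  have h1 : y⁻¹ * x ∈ P0 := hker (by rw [MonoidHom.mem_ker, map_mul, map_inv, hyx]; simp)
  have h2 := P0.mul_mem hy h1
  rw [mul_inv_cancel_left] at h2
  exact h2

end general

section vs

variable {I : Type} [DecidableEq I] {Γ : I → Type} [∀ i, Group (Γ i)]

/-- replace the coordinate at `a` by `1` -/
def kill (a : I) : (∀ i, Γ i) →* (∀ i, Γ i) where
  toFun x := Function.update x a 1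
  map_one' := by
    funext i
    by_cases h : i = a
    · subst h; simp
    · simp [Function.update_of_ne h]
  map_mul' x y := by
    funext i
    by_cases h : i = a
    · subst h; simp
    · simp [Function.update_of_ne h]

theorem kill_same (a : I) (x : ∀ i, Γ i) : kill a x a = 1 := by
  simp [kill]

theorem kill_ne {a i : I} (h : i ≠ a) (x : ∀ i, Γ i) : kill a x i = x i := by
  simp [kill, Function.update_of_ne h]

theorem kill_mul_single (a : I) (x : ∀ i, Γ i) : kill a x * Pi.mulSingle a (x a) = x := by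
  funext i
  by_cases h : i = a
  · subst h; simp [kill_same]
  · simp [kill_ne h, Pi.mulSingle_eq_of_ne h]

theorem kill_single_ne {a i : I} (h : i ≠ a) (g : Γ i) :
    kill a (Pi.mulSingle i g) = Pi.mulSingle i g := by
  funext l
  by_cases hl : l = a
  · subst hl
    rw [kill_same, Pi.mulSingle_eq_of_ne (Ne.symm h)]
  · rw [kill_ne hl]

/-- elements with trivial coordinates in `J` -/
def KJ (J : Finset I) : Subgroup (∀ i, Γ i) where
  carrier := {x | ∀ j ∈ J, x j = 1}
  mul_mem' := by
    intro x y hx hy j hj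
    rw [Pi.mul_apply, hx j hj, hy j hj, one_mul]
  one_mem' := fun j _ => rfl
  inv_mem' := by
    intro x hx j hj
    rw [Pi.inv_apply, hx j hj, inv_one]

theorem mem_KJ {J : Finset I} {x : ∀ i, Γ i} : x ∈ KJ J ↔ ∀ j ∈ J, x j = 1 := Iff.rfl

instance KJ_normal (J : Finset I) : (KJ J : Subgroup (∀ i, Γ i)).Normal := by
  refine ⟨fun x hx g j hj => ?_⟩
  rw [Pi.mul_apply, Pi.mul_apply, Pi.inv_apply, hx j hj, mul_one, mul_inv_cancel]

theorem KJ_mono {J J' : Finset I} (h : J ⊆ J') : (KJ J' : Subgroup (∀ i, Γ i)) ≤ KJ J :=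
  fun _ hx j hj => hx j (h hj)

/-- supported in `A` -/
def Supp (A : Finset I) (P : Subgroup (∀ i, Γ i)) : Prop := ∀ x ∈ P, ∀ i, i ∉ A → x i = 1

/-- virtual surjection to at most `k` coordinates out of `A` -/
def VS (k : ℕ) (A : Finset I) (P : Subgroup (∀ i, Γ i)) : Prop :=
  ∀ J : Finset I, J ⊆ A → J.card ≤ k → (P ⊔ KJ J).FiniteIndex

/-- the quotients by the intersections with the factors are virtually nilpotent -/
def HH (A : Finset I) (P : Subgroup (∀ i, Γ i)) : Prop :=
  ∀ a ∈ A, ∃ (D : Subgroup (Γ a)) (c : ℕ), D.FiniteIndex ∧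
    ∀ g ∈ D.lowerCentralSeries c, Pi.mulSingle a g ∈ P

theorem VS.mono {k k' : ℕ} (hk : k ≤ k') {A : Finset I} {P : Subgroup (∀ i, Γ i)}
    (h : VS k' A P) : VS k A P := fun J hJ hc => h J hJ (hc.trans hk)

theorem VS.kill {k : ℕ} {A : Finset I} {a : I} {P : Subgroup (∀ i, Γ i)}
    (h : VS k (insert a A) P) (ha : a ∉ A) : VS k A (P.map (kill a)) := by
  intro J hJ hc
  have := h J (hJ.trans (Finset.subset_insert a A)) hc
  refine Subgroup.finiteIndex_of_le (H := P ⊔ KJ J) (sup_le ?_ le_sup_right)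
  intro x hx
  rw [← kill_mul_single a x]
  refine Subgroup.mul_mem _ (Subgroup.mem_sup_left ⟨x, hx, rfl⟩) (Subgroup.mem_sup_right ?_)
  intro j hj
  have : j ≠ a := fun h => ha (h ▸ hJ hj)
  rw [Pi.mulSingle_eq_of_ne this]

/-- the part of `P` with trivial `a`-coordinate -/
def Npart (a : I) (P : Subgroup (∀ i, Γ i)) : Subgroup (∀ i, Γ i) :=
  P ⊓ (Pi.evalMonoidHom Γ a).ker

theorem mem_Npart {a : I} {P : Subgroup (∀ i, Γ i)} {x : ∀ i, Γ i} :
    x ∈ Npart a P ↔ x ∈ P ∧ x a = 1 := Iff.rfl

theorem VS.npart {k : ℕ} {A : Finset I} {a : I} {P : Subgroup (∀ i, Γ i)}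
    (h : VS (k + 1) (insert a A) P) (ha : a ∉ A) : VS k A (Npart a P) := by
  intro J hJ hc
  have haJ : a ∉ J := fun h => ha (hJ h)
  have := h (insert a J) (Finset.insert_subset_insert a hJ) (by
    rw [Finset.card_insert_of_notMem haJ]; omega)
  have h2 : ((P ⊔ KJ (insert a J)).comap (W386.kill a)).FiniteIndex := fi_comap _ _
  refine Subgroup.finiteIndex_of_le (H := (P ⊔ KJ (insert a J)).comap (W386.kill a)) ?_
  intro x hx
  obtain ⟨p, hp, z, hz, hpz⟩ := Subgroup.mem_sup_of_normal_right.1 hx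
  have hza : z a = 1 := hz a (Finset.mem_insert_self a J)
  have hpa : p a = 1 := by
    have := congrFun hpz a
    rw [Pi.mul_apply, hza, mul_one, kill_same] at this
    exact this
  rw [← kill_mul_single a x, ← hpz]
  refine Subgroup.mul_mem _ (Subgroup.mul_mem _ (Subgroup.mem_sup_left ⟨hp, hpa⟩)
    (Subgroup.mem_sup_right (KJ_mono (Finset.subset_insert a J) hz))) (Subgroup.mem_sup_right ?_)
  intro j hj
  have : j ≠ a := fun h => haJ (h ▸ hj)
  rw [Pi.mulSingle_eq_of_ne this]

theorem HH.kill {A : Finset I} {a : I} {P : Subgroup (∀ i, Γ i)}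
    (h : HH (insert a A) P) (ha : a ∉ A) : HH A (P.map (W386.kill a)) := by
  intro i hi
  obtain ⟨D, c, h1, h2⟩ := h i (Finset.mem_insert_of_mem hi)
  refine ⟨D, c, h1, fun g hg => ⟨_, h2 g hg, kill_single_ne (fun e : i = a => ha (e ▸ hi)) g⟩⟩

theorem HH.npart {A : Finset I} {a : I} {P : Subgroup (∀ i, Γ i)}
    (h : HH (insert a A) P) (ha : a ∉ A) : HH A (Npart a P) := by
  intro i hi
  obtain ⟨D, c, h1, h2⟩ := h i (Finset.mem_insert_of_mem hi)
  refine ⟨D, c, h1, fun g hg => ⟨h2 g hg, ?_⟩⟩
  exact Pi.mulSingle_eq_of_ne (fun h : a = i => ha (h ▸ hi)) g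

theorem Supp.kill {A : Finset I} {a : I} {P : Subgroup (∀ i, Γ i)}
    (h : Supp (insert a A) P) : Supp A (P.map (W386.kill a)) := by
  rintro _ ⟨x, hx, rfl⟩ i hi
  by_cases hia : i = a
  · subst hia; exact kill_same _ _
  · rw [kill_ne hia]
    exact h x hx i (by simp [hia, hi])

theorem Supp.npart {A : Finset I} {a : I} {P : Subgroup (∀ i, Γ i)}
    (h : Supp (insert a A) P) : Supp A (Npart a P) := by
  rintro x ⟨hx, hxa⟩ i hi
  by_cases hia : i = a
  · subst hia; exact hxa
  · exact h x hx i (by simp [hia, hi])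

/-- the first projection -/
abbrev piT (a : I) (P : Subgroup (∀ i, Γ i)) : P →* P.map (kill a) := (kill a).subgroupMap P

/-- the second projection -/
abbrev piA (a : I) (P : Subgroup (∀ i, Γ i)) : P →* P.map (Pi.evalMonoidHom Γ a) :=
  (Pi.evalMonoidHom Γ a).subgroupMap P

theorem piT_surj (a : I) (P : Subgroup (∀ i, Γ i)) : Surjective (piT a P) :=
  (kill a).subgroupMap_surjective P

theorem piA_surj (a : I) (P : Subgroup (∀ i, Γ i)) : Surjective (piA a P) :=
  (Pi.evalMonoidHom Γ a).subgroupMap_surjective P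

theorem piT_eq_one {a : I} {P : Subgroup (∀ i, Γ i)} {x : P} :
    piT a P x = 1 ↔ kill a (x : ∀ i, Γ i) = 1 := by
  rw [← Subtype.coe_inj]; rfl

theorem piA_eq_one {a : I} {P : Subgroup (∀ i, Γ i)} {x : P} :
    piA a P x = 1 ↔ (x : ∀ i, Γ i) a = 1 := by
  rw [← Subtype.coe_inj]; rfl

theorem pi_inj (a : I) (P : Subgroup (∀ i, Γ i)) (x : P) (h1 : piT a P x = 1)
    (h2 : piA a P x = 1) : x = 1 := by
  apply Subtype.ext
  rw [piT_eq_one] at h1
  rw [piA_eq_one] at h2
  rw [← kill_mul_single a (x : ∀ i, Γ i), h1, h2]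
  simp

theorem fi_proj {k : ℕ} {A : Finset I} {a : I} {P : Subgroup (∀ i, Γ i)} (hk : 1 ≤ k)
    (h : VS k A P) (ha : a ∈ A) : (P.map (Pi.evalMonoidHom Γ a)).FiniteIndex := by
  have := h {a} (by simpa using ha) (by simpa using hk)
  have h2 : ((P ⊔ KJ {a}).comap (MonoidHom.mulSingle Γ a)).FiniteIndex := fi_comap _ _
  refine Subgroup.finiteIndex_of_le (H := (P ⊔ KJ {a}).comap (MonoidHom.mulSingle Γ a)) ?_
  intro g hg
  obtain ⟨p, hp, z, hz, hpz⟩ := Subgroup.mem_sup_of_normal_right.1 hg
  refine ⟨p, hp, ?_⟩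
  have h3 := congrFun hpz a
  rw [Pi.mul_apply, hz a (Finset.mem_singleton_self a), mul_one, MonoidHom.mulSingle_apply,
    Pi.mulSingle_eq_same] at h3
  exact h3

/-- the kernel of the projection forgetting the coordinate `a` is finitely normally generated -/
theorem ifng_piT {k : ℕ} {A : Finset I} {a : I} {P : Subgroup (∀ i, Γ i)} (hk : 1 ≤ k)
    (hfg : ∀ i, Group.FG (Γ i)) (h : VS k A P) (hH : HH A P) (ha : a ∈ A) :
    (piT a P).ker.IsFinitelyNormallyGenerated := by
  refine ifng_of_map (piT a P) (piA a P) (piA_surj a P) (pi_inj a P) ?_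
  have hfi := fi_proj hk h ha
  have hfgΓ : Group.FG (P.map (Pi.evalMonoidHom Γ a)) := by
    have := hfg a
    exact Subgroup.fg_of_index_ne_zero _
  obtain ⟨D, c, hD, hDc⟩ := hH a ha
  let L : Subgroup (P.map (Pi.evalMonoidHom Γ a)) := (piT a P).ker.map (piA a P)
  have hLn : L.Normal := Subgroup.Normal.map inferInstance _ (piA_surj a P)
  let D' : Subgroup (P.map (Pi.evalMonoidHom Γ a)) :=
    D.comap (P.map (Pi.evalMonoidHom Γ a)).subtype
  have hD' : D'.FiniteIndex := fi_comap _ _
  have hle : D'.lowerCentralSeries c ≤ L := by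
    intro x hx
    have h1 : (x : Γ a) ∈ D.lowerCentralSeries c := by
      have h2 : (x : Γ a) ∈ (D'.lowerCentralSeries c).map
          (P.map (Pi.evalMonoidHom Γ a)).subtype := ⟨x, hx, rfl⟩
      rw [Subgroup.map_lowerCentralSeries] at h2
      refine Subgroup.lowerCentralSeries_mono c ?_ h2
      rintro _ ⟨y, hy, rfl⟩
      exact hy
    have h3 := hDc _ h1
    refine ⟨⟨_, h3⟩, ?_, ?_⟩
    · change piT a P ⟨_, h3⟩ = 1
      rw [piT_eq_one]
      funext i
      by_cases hi : i = a
      · subst hi; exact kill_same _ _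
      · rw [kill_ne hi]
        exact Pi.mulSingle_eq_of_ne hi _
    · apply Subtype.ext
      change (Pi.mulSingle a (x : Γ a) : ∀ i, Γ i) a = x
      rw [Pi.mulSingle_eq_same]
  have hvn := vn_quot L D' c hle
  have hfgq : Group.FG (P.map (Pi.evalMonoidHom Γ a) ⧸ L) :=
    Group.fg_of_surjective (QuotientGroup.mk'_surjective L)
  have := ker_ifng (QuotientGroup.mk' L) (QuotientGroup.mk'_surjective L) hfgΓ
    (fp_of_vn hfgq hvn)
  rwa [QuotientGroup.ker_mk'] at this

theorem supp_empty {P : Subgroup (∀ i, Γ i)} (h : Supp ∅ P) : Subsingleton P := by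
  refine ⟨fun x y => Subtype.ext (funext fun i => ?_)⟩
  rw [h x x.2 i (by simp), h y y.2 i (by simp)]

/-- finite generation -/
theorem vs_fg (hfg : ∀ i, Group.FG (Γ i)) (A : Finset I) : ∀ P : Subgroup (∀ i, Γ i),
    Supp A P → HH A P → VS 1 A P → Group.FG P := by
  induction A using Finset.induction_on with
  | empty =>
    intro P hs _ _
    have := supp_empty hs
    infer_instance
  | insert a A ha ih =>
    intro P hs hH h
    have hT := ih _ hs.kill (hH.kill ha) (h.kill ha)
    have hfi := fi_proj le_rfl h (Finset.mem_insert_self a A)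
    have hfgΓ : Group.FG (P.map (Pi.evalMonoidHom Γ a)) := by
      have := hfg a
      exact Subgroup.fg_of_index_ne_zero _
    exact fg_of_two (piT a P) (piT_surj a P) (piA a P) (piA_surj a P) (pi_inj a P) hT hfgΓ
      (ifng_piT le_rfl hfg h hH (Finset.mem_insert_self a A))

theorem FPs.one_triv (P : Type) [Group P] : FPs (ZG P) 1 (Triv P) := by
  refine ⟨1, (augE (MonoidHom.id P)) ∘ₗ extId.toLinearMap ∘ₗ
    (LinearEquiv.funUnique (Fin 1) (ZG P) (ZG P)).toLinearMap, ?_, trivial⟩
  have h1 : Surjective (LinearEquiv.funUnique (Fin 1) (ZG P) (ZG P)) := LinearEquiv.surjective _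
  have h2 : Surjective (extId (G := P)) := LinearEquiv.surjective _
  exact (augE_surj (MonoidHom.id P)).comp (h2.comp h1)

/-- the main induction -/
theorem vs_main (hfg : ∀ i, Group.FG (Γ i)) (A : Finset I) : ∀ (k : ℕ)
    (P : Subgroup (∀ i, Γ i)), (∀ i, FPs (ZG (Γ i)) (k + 1) (Triv (Γ i))) →
    Supp A P → HH A P → VS k A P → FPs (ZG P) (k + 1) (Triv P) := by
  induction A using Finset.induction_on with
  | empty =>
    intro k P _ hs _ _
    have := supp_empty hs
    exact fps_of_vn inferInstance (Group.IsNilpotent.isVirtuallyNilpotent inferInstance) _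
  | insert a A ha ih =>
    intro k P hΓ hs hH h
    cases k with
    | zero => exact FPs.one_triv P
    | succ k =>
      have hN := ih k (Npart a P) (fun i => (hΓ i).mono) hs.npart (hH.npart ha) (h.npart ha)
      have hT := ih (k + 1) (P.map (kill a)) hΓ hs.kill (hH.kill ha) (h.kill ha)
      have hPfg : Group.FG P := vs_fg hfg (insert a A) P hs hH (h.mono (by omega))
      have hfi := fi_proj (by omega) h (Finset.mem_insert_self a A)
      have hA : FPs (ZG (P.map (Pi.evalMonoidHom Γ a))) (k + 2)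
          (Triv (P.map (Pi.evalMonoidHom Γ a))) := fps_finiteIndex _ _ (hΓ a)
      let j : Npart a P →* P := Subgroup.inclusion inf_le_left
      have hjb : (piA a P).ker = j.range := by
        ext x
        rw [MonoidHom.mem_ker, piA_eq_one]
        constructor
        · intro hx
          exact ⟨⟨x, x.2, hx⟩, rfl⟩
        · rintro ⟨y, rfl⟩
          exact y.2.2
      have hj : Injective ((piT a P).comp j) := by
        rw [injective_iff_map_eq_one]
        intro x hx
        have h1 := pi_inj a P (j x) hx (by rw [piA_eq_one]; exact x.2.2)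
        apply Subtype.ext
        exact congrArg (fun y : P => (y : ∀ i, Γ i)) h1
      let M : Subgroup (P.map (kill a)) := ((piT a P).comp j).range
      have hMe : M = (piA a P).ker.map (piT a P) := by
        rw [hjb, ← MonoidHom.range_comp]
      have hMn : M.Normal := by
        rw [hMe]
        exact Subgroup.Normal.map inferInstance _ (piT_surj a P)
      obtain ⟨D, c, hD, hDc⟩ := hH a (Finset.mem_insert_self a A)
      have hTfg : Group.FG (P.map (kill a)) := Group.fg_of_surjective (piT_surj a P)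
      have hQfg : Group.FG (P.map (kill a) ⧸ M) :=
        Group.fg_of_surjective (QuotientGroup.mk'_surjective M)
      let D' : Subgroup P := D.comap ((Pi.evalMonoidHom Γ a).comp P.subtype)
      have hD' : D'.FiniteIndex := fi_comap _ _
      let D'' : Subgroup (P.map (kill a)) := D'.map (piT a P)
      have hD'' : D''.FiniteIndex := fi_map _ (piT_surj a P) _
      have hvn : Group.IsVirtuallyNilpotent (P.map (kill a) ⧸ M) := by
        refine vn_quot M D'' c ?_
        rw [← Subgroup.map_lowerCentralSeries]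
        rintro _ ⟨x, hx, rfl⟩
        have h1 : (x : ∀ i, Γ i) a ∈ D.lowerCentralSeries c := by
          have h2 : (x : ∀ i, Γ i) a ∈ (D'.lowerCentralSeries c).map
              ((Pi.evalMonoidHom Γ a).comp P.subtype) := ⟨x, hx, rfl⟩
          rw [Subgroup.map_lowerCentralSeries] at h2
          refine Subgroup.lowerCentralSeries_mono c ?_ h2
          rintro _ ⟨y, hy, rfl⟩
          exact hy
        have h3 := hDc _ h1
        let s : P := ⟨_, h3⟩
        have h4 : piT a P (x * s⁻¹) = piT a P x := by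
          have : piT a P s = 1 := by
            rw [piT_eq_one]
            funext i
            by_cases hi : i = a
            · subst hi; exact kill_same _ _
            · rw [kill_ne hi]
              exact Pi.mulSingle_eq_of_ne hi _
          rw [map_mul, map_inv, this, inv_one, mul_one]
        rw [hMe, ← h4]
        refine ⟨x * s⁻¹, ?_, rfl⟩
        change piA a P (x * s⁻¹) = 1
        rw [piA_eq_one]
        change (x : ∀ i, Γ i) a * ((Pi.mulSingle a ((x : ∀ i, Γ i) a) : ∀ i, Γ i) a)⁻¹ = 1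
        rw [Pi.mulSingle_eq_same, mul_inv_cancel]
      have hQ : FPs (ZG (P.map (kill a) ⧸ M)) (k + 3) (Triv (P.map (kill a) ⧸ M)) :=
        fps_of_vn hQfg hvn _
      exact main_fp j (piT a P) (piA a P) (QuotientGroup.mk' M) (piT_surj a P) (piA_surj a P)
        (QuotientGroup.mk'_surjective M) hj hjb (QuotientGroup.ker_mk' M) hPfg
        (ifng_piT (by omega) hfg h hH (Finset.mem_insert_self a A)) k hN hT hQ hA

end vs

section commutators

variable {I : Type} [DecidableEq I] [Finite I] {Γ : I → Type} [∀ i, Group (Γ i)]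

/-- virtual surjection to pairs gives the virtually nilpotent quotients -/
theorem hh_of_vs {P : Subgroup (∀ i, Γ i)} {A : Finset I} (hA : ∀ i, i ∈ A) (h : VS 2 A P) :
    HH A P := by
  intro a _
  let E : Finset I → Subgroup (Γ a) := fun B => (P ⊓ KJ B).map (Pi.evalMonoidHom Γ a)
  have hE1 : ∀ i, i ≠ a → (E {i}).FiniteIndex := by
    intro i hi
    have := h {i, a} (fun x _ => hA x) (by rw [Finset.card_pair hi])
    have h2 : ((P ⊔ KJ {i, a}).comap (MonoidHom.mulSingle Γ a)).FiniteIndex := fi_comap _ _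
    refine Subgroup.finiteIndex_of_le (H := (P ⊔ KJ {i, a}).comap (MonoidHom.mulSingle Γ a)) ?_
    intro g hg
    obtain ⟨p, hp, z, hz, hpz⟩ := Subgroup.mem_sup_of_normal_right.1 hg
    refine ⟨p, ⟨hp, ?_⟩, ?_⟩
    · intro l hl
      rw [Finset.mem_singleton] at hl
      subst hl
      have h3 := congrFun hpz l
      rw [Pi.mul_apply, hz l (by simp), mul_one, MonoidHom.mulSingle_apply,
        Pi.mulSingle_eq_of_ne hi] at h3
      exact h3
    · have h3 := congrFun hpz a
      rw [Pi.mul_apply, hz a (by simp), mul_one, MonoidHom.mulSingle_apply,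
        Pi.mulSingle_eq_same] at h3
      exact h3
  have hE0 : (E ∅).FiniteIndex := by
    have h0 : (P.map (Pi.evalMonoidHom Γ a)).FiniteIndex := fi_proj (by norm_num) h (hA a)
    refine Subgroup.finiteIndex_of_le (H := P.map (Pi.evalMonoidHom Γ a)) ?_
    rintro _ ⟨x, hx, rfl⟩
    exact ⟨x, ⟨hx, fun j hj => absurd hj (by simp)⟩, rfl⟩
  let D : Subgroup (Γ a) := E ∅ ⊓ ⨅ i : {i : I // i ≠ a}, E {(i : I)}
  have hD : D.FiniteIndex := by
    have : (⨅ i : {i : I // i ≠ a}, E {(i : I)}).FiniteIndex :=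
      Subgroup.finiteIndex_iInf fun i => hE1 i i.2
    exact inferInstanceAs ((E ∅ ⊓ ⨅ i : {i : I // i ≠ a}, E {(i : I)}).FiniteIndex)
  have key : ∀ B : Finset I, a ∉ B → D.lowerCentralSeries B.card ≤ E B := by
    intro B
    induction B using Finset.induction_on with
    | empty =>
      intro _
      exact inf_le_left
    | insert i B hi ih =>
      intro haB
      have hia : i ≠ a := fun h => haB (h ▸ Finset.mem_insert_self i B)
      have haB' : a ∉ B := fun h => haB (Finset.mem_insert_of_mem h)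
      rw [Finset.card_insert_of_notMem hi, Subgroup.lowerCentralSeries_succ,
        Subgroup.commutator_le]
      intro x hx d hd
      obtain ⟨y, ⟨hyP, hyB⟩, rfl⟩ := ih haB' hx
      have hd' : d ∈ E {i} := by
        have h1 := hd.2
        exact (Subgroup.mem_iInf.1 h1) ⟨i, hia⟩
      obtain ⟨z, ⟨hzP, hzi⟩, rfl⟩ := hd'
      refine ⟨⁅y, z⁆, ⟨?_, ?_⟩, map_commutatorElement _ _ _⟩
      · rw [commutatorElement_def]
        exact P.mul_mem (P.mul_mem (P.mul_mem hyP hzP) (P.inv_mem hyP)) (P.inv_mem hzP)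
      · intro l hl
        rw [commutatorElement_def, Pi.mul_apply, Pi.mul_apply, Pi.mul_apply, Pi.inv_apply,
          Pi.inv_apply]
        rcases Finset.mem_insert.1 hl with rfl | hl
        · rw [hzi l (Finset.mem_singleton_self l)]; simp
        · rw [hyB l hl]; simp
  refine ⟨D, (A.erase a).card, hD, fun g hg => ?_⟩
  obtain ⟨y, ⟨hyP, hyB⟩, hyg⟩ := key (A.erase a) (by simp) hg
  have : Pi.mulSingle a g = y := by
    funext i
    by_cases hi : i = a
    · subst hi
      rw [Pi.mulSingle_eq_same]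
      exact hyg.symm
    · rw [Pi.mulSingle_eq_of_ne hi, hyB i (Finset.mem_erase.2 ⟨hi, hA i⟩)]
  rw [this]
  exact hyP

end commutators

end Pool.Agent.W386
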