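import Pool.Agent.W386.FPs

set_option autoImplicit false

/-!
# Finiteness of two-term complexes
-/

namespace Pool.Agent.W386

open Function

variable {R : Type} [Ring R]

/-- The complex `f : A → B` has type `FP_m`: for some map `g` from a finitely generated free module
the map `f + g` is onto and its kernel has a partial resolution of length `m`. -/
def SFP (m : ℕ) {A B : Type} [AddCommGroup A] [Module R A] [AddCommGroup B] [Module R B]
    (f : A →ₗ[R] B) : Prop :=
  ∃ (k : ℕ) (g : (Fin k → R) →ₗ[R] B), Surjective (f.coprod g) ∧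
    FPs R m (LinearMap.ker (f.coprod g))

section
variable {A B C : Type} [AddCommGroup A] [Module R A] [AddCommGroup B] [Module R B]
  [AddCommGroup C] [Module R C]

theorem SFP.ker_of_surjective {m : ℕ} {f : A →ₗ[R] B} (h : SFP m f) {X : Type}
    [AddCommGroup X] [Module R X] (hX : FGF R X) (g' : X →ₗ[R] B)
    (hg' : Surjective (f.coprod g')) : FPs R m (LinearMap.ker (f.coprod g')) := by
  obtain ⟨k, g, hg, h⟩ := h
  have h1 : FPs R m (pb (f.coprod g) (-g')) := FPs.pb_of_left _ _ hg h (FPs.of_fgf hX m)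
  let q : pb (f.coprod g) (-g') →ₗ[R] (Fin k → R) :=
    (LinearMap.snd R A (Fin k → R)) ∘ₗ (LinearMap.fst R (A × (Fin k → R)) X) ∘ₗ
      (pb (f.coprod g) (-g')).subtype
  have hq : Surjective q := by
    intro r
    obtain ⟨⟨a, x⟩, hax⟩ := hg' (- g r)
    refine ⟨⟨((a, r), x), ?_⟩, rfl⟩
    rw [mem_pb]
    simp only [LinearMap.coprod_apply, LinearMap.neg_apply] at hax ⊢
    rw [eq_neg_iff_add_eq_zero, add_assoc, add_comm (g r), ← add_assoc, hax]
    simp
  refine FPs.equiv ?_ (FPs.of_ker_fgf (FGF.fin k) q hq h1)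
  refine LinearEquiv.symm (LinearEquiv.ofBijective
    (((((LinearMap.inl R A (Fin k → R)).prodMap (LinearMap.id (M := X))) ∘ₗ
      (LinearMap.ker (f.coprod g')).subtype).codRestrict
        (pb (f.coprod g) (-g')) ?_).codRestrict (LinearMap.ker q) ?_) ⟨?_, ?_⟩)
  · rintro ⟨⟨a, x⟩, hax⟩
    rw [mem_pb]
    rw [LinearMap.mem_ker] at hax
    simp only [LinearMap.coprod_apply] at hax
    simp [eq_neg_iff_add_eq_zero, hax]
  · rintro ⟨⟨a, x⟩, hax⟩
    rw [LinearMap.mem_ker]
    rfl
  · rintro ⟨⟨a, x⟩, hax⟩ ⟨⟨b, y⟩, hby⟩ hxy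
    apply Subtype.ext
    exact congrArg (fun z => ((z.1.1.1.1, z.1.1.2) : A × X)) hxy
  · rintro ⟨⟨⟨⟨a, r⟩, x⟩, h1⟩, h2⟩
    have hr : r = 0 := h2
    subst hr
    rw [mem_pb] at h1
    refine ⟨⟨(a, x), ?_⟩, rfl⟩
    rw [LinearMap.mem_ker]
    simp only [LinearMap.coprod_apply, LinearMap.neg_apply, map_zero, add_zero] at h1 ⊢
    rw [h1]
    simp

theorem SFP.of_fgf {m : ℕ} {f : A →ₗ[R] B} {X : Type}
    [AddCommGroup X] [Module R X] (hX : FGF R X) (g : X →ₗ[R] B)
    (hg : Surjective (f.coprod g)) (h : FPs R m (LinearMap.ker (f.coprod g))) : SFP m f := by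
  obtain ⟨k, ⟨e⟩⟩ := hX
  refine ⟨k, g ∘ₗ e.symm.toLinearMap, ?_, ?_⟩
  · intro b
    obtain ⟨⟨a, x⟩, hax⟩ := hg b
    refine ⟨(a, e x), ?_⟩
    simpa using hax
  · refine FPs.equiv (M := LinearMap.ker (f.coprod g)) ?_ h
    refine LinearEquiv.ofSubmodules ((LinearEquiv.refl R A).prodCongr e) _ _ ?_
    ext ⟨a, r⟩
    simp only [Submodule.mem_map, LinearMap.mem_ker, LinearMap.coprod_apply]
    constructor
    · rintro ⟨⟨a', x⟩, hy, hyy⟩
      have h1 : a' = a := congrArg Prod.fst hyy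
      have h2 : e x = r := congrArg Prod.snd hyy
      subst h1 h2
      simpa using hy
    · intro h
      refine ⟨(a, e.symm r), h, ?_⟩
      apply Prod.ext
      · rfl
      · exact e.apply_symm_apply r

theorem SFP.comp_equiv {m : ℕ} {A' : Type} [AddCommGroup A'] [Module R A'] {f : A →ₗ[R] B}
    (e : A' ≃ₗ[R] A) (h : SFP m f) : SFP m (f ∘ₗ e.toLinearMap) := by
  obtain ⟨k, g, hg, h⟩ := h
  refine ⟨k, g, ?_, ?_⟩
  · intro b
    obtain ⟨⟨a, x⟩, hax⟩ := hg b
    refine ⟨(e.symm a, x), ?_⟩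
    simpa using hax
  · refine FPs.equiv (M := LinearMap.ker (f.coprod g)) ?_ h
    refine LinearEquiv.ofSubmodules (e.symm.prodCongr (LinearEquiv.refl R (Fin k → R))) _ _ ?_
    ext ⟨a, r⟩
    simp only [Submodule.mem_map, LinearMap.mem_ker, LinearMap.coprod_apply]
    constructor
    · rintro ⟨⟨a', x⟩, hy, hyy⟩
      have h1 : e.symm a' = a := congrArg Prod.fst hyy
      have h2 : x = r := congrArg Prod.snd hyy
      subst h1 h2
      simpa using hy
    · intro h
      refine ⟨(e a, r), h, ?_⟩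
      apply Prod.ext
      · exact e.symm_apply_apply a
      · rfl

/-- the construction of the shift -/
theorem shift_aux {XA XB : Type} [AddCommGroup XA] [Module R XA] [AddCommGroup XB] [Module R XB]
    (f : A →ₗ[R] B) (πA : XA →ₗ[R] A) (πB : XB →ₗ[R] B) (hA : Surjective πA) (F : XA →ₗ[R] XB)
    (hF : ∀ x, πB (F x) = f (πA x)) (f' : LinearMap.ker πA →ₗ[R] LinearMap.ker πB)
    (hf' : ∀ x, (f' x : XB) = F x) :
    ∃ Θ : (XA × LinearMap.ker πB) →ₗ[R] LinearMap.ker (f.coprod πB), Surjective Θ ∧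
      ∀ (s : ℕ) (g' : (Fin s → R) →ₗ[R] LinearMap.ker πB),
        (Surjective (f'.coprod g') ↔ Surjective (Θ ∘ₗ (LinearMap.id.prodMap g'))) ∧
        Nonempty (LinearMap.ker (f'.coprod g') ≃ₗ[R]
          LinearMap.ker (Θ ∘ₗ (LinearMap.id.prodMap g'))) := by
  let Θ : (XA × LinearMap.ker πB) →ₗ[R] LinearMap.ker (f.coprod πB) :=
    ((πA ∘ₗ LinearMap.fst R XA (LinearMap.ker πB)).prod
      ((LinearMap.ker πB).subtype ∘ₗ LinearMap.snd R XA (LinearMap.ker πB) -
        F ∘ₗ LinearMap.fst R XA (LinearMap.ker πB))).codRestrict _ (by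
      rintro ⟨c, b⟩
      rw [LinearMap.mem_ker]
      change (f.coprod πB) (πA c, (b : XB) - F c) = 0
      have := b.2
      rw [LinearMap.mem_ker] at this
      rw [LinearMap.coprod_apply, map_sub, hF, this]
      simp)
  have hΘ : ∀ c b, ((Θ (c, b) : LinearMap.ker (f.coprod πB)) : A × XB) = (πA c, (b : XB) - F c) :=
    fun c b => rfl
  have hΘs : Surjective Θ := by
    rintro ⟨⟨a, x⟩, hax⟩
    rw [LinearMap.mem_ker, LinearMap.coprod_apply] at hax
    obtain ⟨c, rfl⟩ := hA a
    refine ⟨(c, ⟨x + F c, ?_⟩), ?_⟩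
    · rw [LinearMap.mem_ker, map_add, hF, add_comm]
      exact hax
    · apply Subtype.ext
      rw [hΘ]
      simp
  refine ⟨Θ, hΘs, fun s g' => ⟨⟨?_, ?_⟩, ⟨?_⟩⟩⟩
  · intro hs z
    obtain ⟨⟨c, b⟩, rfl⟩ := hΘs z
    obtain ⟨⟨a', r⟩, har⟩ := hs b
    refine ⟨(c - a', r), ?_⟩
    apply Subtype.ext
    simp only [LinearMap.comp_apply, LinearMap.prodMap_apply, LinearMap.id_apply]
    rw [hΘ, hΘ, ← har, LinearMap.coprod_apply]
    have h0 : πA (a' : XA) = 0 := a'.2
    simp only [map_sub, h0, sub_zero, Submodule.coe_add, hf', Prod.mk.injEq, true_and]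
    abel
  · intro hs b
    obtain ⟨⟨c, r⟩, hcr⟩ := hs ⟨(0, b), by
      rw [LinearMap.mem_ker, LinearMap.coprod_apply]
      have := b.2
      rw [LinearMap.mem_ker] at this
      simp [this]⟩
    have h1 := congrArg Subtype.val hcr
    simp only [LinearMap.comp_apply, LinearMap.prodMap_apply, LinearMap.id_apply] at h1
    rw [hΘ] at h1
    have h2 : πA c = 0 := congrArg Prod.fst h1
    have h3 : (g' r : XB) - F c = b := congrArg Prod.snd h1
    refine ⟨(⟨-c, ?_⟩, r), ?_⟩
    · rw [LinearMap.mem_ker, map_neg, h2, neg_zero]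
    · apply Subtype.ext
      rw [LinearMap.coprod_apply, Submodule.coe_add, hf', ← h3]
      simp only [map_neg]
      abel
  · refine LinearEquiv.ofBijective
      (((-(LinearMap.ker πA).subtype).prodMap (LinearMap.id (M := Fin s → R)) ∘ₗ
        (LinearMap.ker (f'.coprod g')).subtype).codRestrict _ ?_) ⟨?_, ?_⟩
    · rintro ⟨⟨a, r⟩, har⟩
      rw [LinearMap.mem_ker] at har ⊢
      apply Subtype.ext
      have h1 := congrArg Subtype.val har
      rw [LinearMap.coprod_apply, Submodule.coe_add, hf'] at h1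
      simp only [LinearMap.comp_apply, LinearMap.prodMap_apply, LinearMap.id_apply,
        Submodule.subtype_apply, LinearMap.neg_apply]
      rw [hΘ]
      have h0 : πA (a : XA) = 0 := a.2
      have h1' : F (a : XA) + (g' r : XB) = 0 := h1
      rw [map_neg, map_neg, h0, sub_neg_eq_add, add_comm, h1']
      simp
    · rintro ⟨⟨a, r⟩, har⟩ ⟨⟨b, t⟩, hbt⟩ hab
      have h1 := congrArg (fun z => z.1.1) hab
      have h2 := congrArg (fun z => z.1.2) hab
      have h1' : -(a : XA) = -(b : XA) := h1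
      have h2' : r = t := h2
      subst h2'
      apply Subtype.ext
      apply Prod.ext
      · apply Subtype.ext
        exact neg_injective h1'
      · rfl
    · rintro ⟨⟨c, r⟩, hcr⟩
      rw [LinearMap.mem_ker] at hcr
      have h1 := congrArg Subtype.val hcr
      simp only [LinearMap.comp_apply, LinearMap.prodMap_apply, LinearMap.id_apply] at h1
      rw [hΘ] at h1
      have h2 : πA c = 0 := congrArg Prod.fst h1
      have h3 : (g' r : XB) - F c = 0 := congrArg Prod.snd h1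
      refine ⟨⟨(⟨-c, ?_⟩, r), ?_⟩, ?_⟩
      · rw [LinearMap.mem_ker, map_neg, h2, neg_zero]
      · rw [LinearMap.mem_ker, LinearMap.coprod_apply]
        apply Subtype.ext
        rw [Submodule.coe_add, hf']
        simp only [map_neg, ZeroMemClass.coe_zero]
        rw [add_comm, ← sub_eq_add_neg, h3]
      · apply Subtype.ext
        apply Prod.ext
        · exact neg_neg c
        · rfl

/-- the shift -/
theorem SFP.shift {m : ℕ} {XA XB : Type} [AddCommGroup XA] [Module R XA] [AddCommGroup XB]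
    [Module R XB] (hXA : FGF R XA) (hXB : FGF R XB)
    (f : A →ₗ[R] B) (πA : XA →ₗ[R] A) (πB : XB →ₗ[R] B) (hA : Surjective πA) (hB : Surjective πB)
    (F : XA →ₗ[R] XB)
    (hF : ∀ x, πB (F x) = f (πA x)) (f' : LinearMap.ker πA →ₗ[R] LinearMap.ker πB)
    (hf' : ∀ x, (f' x : XB) = F x) : SFP (m + 1) f ↔ SFP m f' := by
  obtain ⟨Θ, hΘ, h⟩ := shift_aux f πA πB hA F hF f' hf'
  have hs : Surjective (f.coprod πB) := by
    intro b
    obtain ⟨x, rfl⟩ := hB b
    exact ⟨(0, x), by simp⟩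
  constructor
  · intro hf
    have hK := hf.ker_of_surjective hXB πB hs
    obtain ⟨s, κ, hκ, -⟩ := hK
    obtain ⟨l, hl⟩ := (FGF.fin (R := R) s).lift Θ hΘ κ
    have hl' : ∀ r, Θ (l r) = κ r := fun r => LinearMap.congr_fun hl r
    let g' : (Fin s → R) →ₗ[R] LinearMap.ker πB := (LinearMap.snd R XA (LinearMap.ker πB)) ∘ₗ l
    obtain ⟨h1, ⟨e⟩⟩ := h s g'
    have hsurj : Surjective (Θ ∘ₗ (LinearMap.id.prodMap g')) := by
      intro z
      obtain ⟨r, rfl⟩ := hκ z
      refine ⟨((l r).1, r), ?_⟩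
      rw [← hl']
      rfl
    refine ⟨s, g', h1.2 hsurj, FPs.equiv e.symm ?_⟩
    exact FPs.ker_of_cover (hXA.prod (FGF.fin s)) (hf.ker_of_surjective hXB πB hs) _ hsurj
  · rintro ⟨s, g', hg', hK⟩
    obtain ⟨h1, ⟨e⟩⟩ := h s g'
    refine SFP.of_fgf hXB πB hs ?_
    exact FPs.of_cover_aux (hXA.prod (FGF.fin s)) _ (h1.1 hg') (FPs.equiv e hK)

/-- if the cokernel is of type `FP_m` and the kernel of type `FP_(m-1)` then the two-term
complex is of type `FP_m` -/
theorem SFP.of_coker {m : ℕ} (f : A →ₗ[R] B) (p : B →ₗ[R] C) (hp : Surjective p)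
    (hfp : LinearMap.ker p = LinearMap.range f) (hf : FPs R m (LinearMap.ker f))
    (hC : FPs R (m + 1) C) : SFP m f := by
  obtain ⟨k, c, hc, h⟩ := hC
  obtain ⟨g, hg⟩ := (FGF.fin (R := R) k).lift p hp c
  have hg' : ∀ y, p (g y) = c y := fun y => LinearMap.congr_fun hg y
  have hpf : ∀ a, p (f a) = 0 := by
    intro a
    have : f a ∈ LinearMap.ker p := by
      rw [hfp]
      exact ⟨a, rfl⟩
    exact this
  have hrange : ∀ b, p b = 0 → ∃ a, f a = b := by
    intro b hb
    have : b ∈ LinearMap.range f := by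
      rw [← hfp]
      exact hb
    exact this
  refine ⟨k, g, ?_, ?_⟩
  · intro b
    obtain ⟨r, hr⟩ := hc (p b)
    obtain ⟨a, ha⟩ := hrange (b - g r) (by rw [map_sub, hg', hr, sub_self])
    refine ⟨(a, r), ?_⟩
    rw [LinearMap.coprod_apply, ha]
    abel
  · let q : LinearMap.ker (f.coprod g) →ₗ[R] LinearMap.ker c :=
      ((LinearMap.snd R A (Fin k → R)) ∘ₗ (LinearMap.ker (f.coprod g)).subtype).codRestrict _ (by
        rintro ⟨⟨a, r⟩, har⟩
        rw [LinearMap.mem_ker, LinearMap.coprod_apply] at har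
        rw [LinearMap.mem_ker]
        change c r = 0
        have := congrArg p har
        rw [map_add, hpf, zero_add, map_zero, hg'] at this
        exact this)
    refine FPs.ext m q ?_ ?_ h
    · rintro ⟨r, hr⟩
      rw [LinearMap.mem_ker] at hr
      obtain ⟨a, ha⟩ := hrange (-(g r)) (by rw [map_neg, hg', hr, neg_zero])
      refine ⟨⟨(a, r), ?_⟩, rfl⟩
      rw [LinearMap.mem_ker, LinearMap.coprod_apply, ha]
      exact neg_add_cancel _
    · refine FPs.equiv (M := LinearMap.ker f) ?_ hf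
      refine LinearEquiv.ofBijective
        ((((LinearMap.inl R A (Fin k → R)) ∘ₗ (LinearMap.ker f).subtype).codRestrict
          (LinearMap.ker (f.coprod g)) ?_).codRestrict (LinearMap.ker q) ?_) ⟨?_, ?_⟩
      · rintro ⟨x, hx⟩
        rw [LinearMap.mem_ker] at hx ⊢
        change (f.coprod g) (x, 0) = 0
        rw [LinearMap.coprod_apply, hx]
        simp
      · rintro ⟨x, hx⟩
        rw [LinearMap.mem_ker]
        rfl
      · rintro ⟨x, hx⟩ ⟨y, hy⟩ hxy
        apply Subtype.ext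
        exact congrArg (fun z => (z.1.1.1 : A)) hxy
      · rintro ⟨⟨⟨x, y⟩, h1⟩, h2⟩
        have hy : y = 0 := congrArg Subtype.val h2
        subst hy
        rw [LinearMap.mem_ker, LinearMap.coprod_apply, map_zero, add_zero] at h1
        exact ⟨⟨x, h1⟩, rfl⟩

/-- converse statement -/
theorem SFP.quot {m : ℕ} (f : A →ₗ[R] B) (p : B →ₗ[R] C) (hp : Surjective p)
    (hfp : ∀ a, p (f a) = 0) (hf : SFP m f) (hI : FPs R m (LinearMap.ker p))
    (hA : FPs R m A) : FPs R (m + 1) C := by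
  have hf0 := hf
  obtain ⟨k, g, hg, -⟩ := hf
  have hpg : Surjective (p ∘ₗ g) := by
    intro z
    obtain ⟨b, rfl⟩ := hp z
    obtain ⟨⟨a, r⟩, rfl⟩ := hg b
    refine ⟨r, ?_⟩
    rw [LinearMap.coprod_apply, map_add, hfp, zero_add]
    rfl
  refine ⟨k, p ∘ₗ g, hpg, ?_⟩
  cases m with
  | zero => trivial
  | succ m =>
    have hI0 := hI
    obtain ⟨j, h, hh, -⟩ := hI
    let f1 : A →ₗ[R] LinearMap.ker p := f.codRestrict _ hfp
    have hs1 : Surjective (f1.coprod h) := by
      intro z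
      obtain ⟨r, rfl⟩ := hh z
      exact ⟨(0, r), by simp⟩
    have hK1 : FPs R m (LinearMap.ker (f1.coprod h)) :=
      FPs.ker _ hs1 hI0 (FPs.prod hA.mono (FPs.of_fgf (FGF.fin j) m))
    let G : ((Fin j → R) × (Fin k → R)) →ₗ[R] B := ((LinearMap.ker p).subtype ∘ₗ h).coprod g
    have hG : ∀ r c, G (r, c) = (h r : B) + g c := fun r c => by simp [G]
    have hs2 : Surjective (f.coprod G) := by
      intro b
      obtain ⟨⟨a, r⟩, rfl⟩ := hg b
      refine ⟨(a, (0, r)), ?_⟩
      have h1 : (f.coprod G) (a, (0, r)) = f a + G (0, r) := rfl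
      have h2 : (f.coprod g) (a, r) = f a + g r := rfl
      rw [h1, h2, hG]
      simp
    have hK2 : FPs R (m + 1) (LinearMap.ker (f.coprod G)) :=
      hf0.ker_of_surjective ((FGF.fin j).prod (FGF.fin k)) G hs2
    let q : LinearMap.ker (f.coprod G) →ₗ[R] LinearMap.ker (p ∘ₗ g) :=
      ((LinearMap.snd R (Fin j → R) (Fin k → R)) ∘ₗ
        (LinearMap.snd R A ((Fin j → R) × (Fin k → R))) ∘ₗ
          (LinearMap.ker (f.coprod G)).subtype).codRestrict _ (by
        rintro ⟨⟨a, ⟨r, c⟩⟩, har⟩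
        rw [LinearMap.mem_ker, LinearMap.coprod_apply, hG] at har
        rw [LinearMap.mem_ker]
        change p (g c) = 0
        have := congrArg p har
        rw [map_add, map_add, map_zero, hfp, zero_add] at this
        have h0 : p (h r : B) = 0 := (h r).2
        rw [h0, zero_add] at this
        exact this)
    refine FPs.quot q ?_ ?_ hK2
    · rintro ⟨c, hc⟩
      rw [LinearMap.mem_ker] at hc
      have hc' : p (g c) = 0 := hc
      obtain ⟨r, hr⟩ := hh ⟨-(g c), by rw [LinearMap.mem_ker, map_neg, hc', neg_zero]⟩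
      refine ⟨⟨(0, (r, c)), ?_⟩, rfl⟩
      rw [LinearMap.mem_ker, LinearMap.coprod_apply, hG, hr, map_zero, zero_add]
      exact neg_add_cancel _
    · refine FPs.equiv (M := LinearMap.ker (f1.coprod h)) ?_ hK1
      refine LinearEquiv.ofBijective
        ((((LinearMap.id (M := A)).prodMap (LinearMap.inl R (Fin j → R) (Fin k → R)) ∘ₗ
          (LinearMap.ker (f1.coprod h)).subtype).codRestrict
          (LinearMap.ker (f.coprod G)) ?_).codRestrict (LinearMap.ker q) ?_) ⟨?_, ?_⟩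
      · rintro ⟨⟨a, r⟩, hx⟩
        rw [LinearMap.mem_ker] at hx ⊢
        have h1 := congrArg Subtype.val hx
        rw [LinearMap.coprod_apply] at h1
        have h1' : f a + (h r : B) = 0 := h1
        change (f.coprod G) (a, (r, 0)) = 0
        rw [LinearMap.coprod_apply, hG, map_zero, add_zero, h1']
      · rintro ⟨x, hx⟩
        rw [LinearMap.mem_ker]
        rfl
      · rintro ⟨⟨a, r⟩, hx⟩ ⟨⟨b, t⟩, hy⟩ hxy
        apply Subtype.ext
        exact congrArg (fun z => ((z.1.1.1, z.1.1.2.1) : A × (Fin j → R))) hxy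
      · rintro ⟨⟨⟨a, ⟨r, c⟩⟩, h1⟩, h2⟩
        have hy : c = 0 := congrArg Subtype.val h2
        subst hy
        rw [LinearMap.mem_ker, LinearMap.coprod_apply, hG, map_zero, add_zero] at h1
        refine ⟨⟨(a, r), ?_⟩, rfl⟩
        rw [LinearMap.mem_ker, LinearMap.coprod_apply]
        apply Subtype.ext
        exact h1

end

end Pool.Agent.W386
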