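import Pool.Agent.W386.Conv
import Pool.Agent.W386.Grp
import Pool.Agent.Helper294.HallC.NoeOfFg
import Pool.Agent.Helper294.HallC.PcFp
import Pool.Agent.H53R2.FinNil

set_option autoImplicit false

/-!
# Finitely generated virtually nilpotent groups
-/

namespace Pool.Agent.W386

open Function

theorem FPs.of_noetherian {R : Type} [Ring R] [IsNoetherianRing R] (n : ℕ) :
    ∀ (M : Type) [AddCommGroup M] [Module R M] [Module.Finite R M], FPs R n M := by
  induction n with
  | zero => intros; trivial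
  | succ n ih =>
    intro M _ _ _
    obtain ⟨k, f, hf⟩ := Module.Finite.exists_fin' R M
    exact ⟨k, f, hf, ih _⟩

/-- the action of a group on a module over its group ring -/
@[reducible] noncomputable def actInst (Γ A : Type) [Group Γ] [AddCommGroup A]
    [Module (ZG Γ) A] : DistribMulAction Γ A where
  smul := act
  one_smul := act_one
  mul_smul := act_mul
  smul_zero := act_zero
  smul_add := act_add

theorem noeth_of_pc {Q : Type} [Group Q] (H : Subgroup Q) [hH : H.FiniteIndex]
    (hp : Helper294.HallC.PC H) : IsNoetherianRing (ZG Q) := by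
  classical
  let A : Type := Res (gr H.subtype) (ZG Q)
  letI := actInst H A
  have hact : ∀ (h : H) (x : A), (h • x : A) =
      (MonoidAlgebra.of ℤ Q (h : Q) * (id x : ZG Q) : ZG Q) := by
    intro h x
    change gr H.subtype (MonoidAlgebra.of ℤ H h) * (id x : ZG Q) = _
    rw [mapDomain_of]
    rfl
  have hfg : Helper294.HallC.FGM H A := by
    have : Finite (Q ⧸ H) := inferInstance
    have hf := Fintype.ofFinite (Q ⧸ H)
    let S : Finset A := Finset.univ.image (fun c : Q ⧸ H =>
      (id (MonoidAlgebra.of ℤ Q (Quotient.out c)⁻¹) : A))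
    refine ⟨S, ?_⟩
    rw [eq_top_iff]
    intro x _
    let T : AddSubgroup (ZG Q) := AddSubgroup.closure {a : A | ∃ g : H, ∃ s ∈ S, a = g • s}
    refine zg_induction T (fun q => ?_) (id x : ZG Q)
    refine AddSubgroup.subset_closure ?_
    have h1 : ((Quotient.out (QuotientGroup.mk q⁻¹ : Q ⧸ H) : Q))⁻¹ * q⁻¹ ∈ H := by
      rw [← QuotientGroup.eq]
      exact Quotient.out_eq _
    refine ⟨⟨_, H.inv_mem h1⟩, id (MonoidAlgebra.of ℤ Q (Quotient.out (QuotientGroup.mk q⁻¹ : Q ⧸ H))⁻¹), ?_, ?_⟩
    · exact Finset.mem_image.2 ⟨_, Finset.mem_univ _, rfl⟩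
    · rw [hact]
      change MonoidAlgebra.of ℤ Q q = MonoidAlgebra.of ℤ Q _ * MonoidAlgebra.of ℤ Q _
      rw [← map_mul]
      congr 1
      simp
  have hN := Helper294.HallC.noe_of_fg hp hfg
  change IsNoetherian (ZG Q) (ZG Q)
  rw [← monotone_stabilizes_iff_noetherian]
  intro f
  obtain ⟨n, hn⟩ := hN (fun n => (f n).toAddSubgroup) (fun a b hab x hx => f.2 hab hx) (by
    intro n g x hx
    rw [hact]
    exact (f n).smul_mem (MonoidAlgebra.of ℤ Q (g : Q)) hx)
  refine ⟨n, fun m hm => ?_⟩
  have h1 := hn m hm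
  ext x
  have h2 : x ∈ (f m).toAddSubgroup ↔ x ∈ (f n).toAddSubgroup := by
    constructor
    · intro h
      have : (id x : A) ∈ ((f m).toAddSubgroup : AddSubgroup A) := h
      rw [h1] at this
      exact this
    · intro h
      have : (id x : A) ∈ ((f n).toAddSubgroup : AddSubgroup A) := h
      rw [← h1] at this
      exact this
  exact h2.symm

theorem pc_of_nil {H : Type} [Group H] (h1 : Group.FG H) (h2 : Group.IsNilpotent H) :
    Helper294.HallC.PC H :=
  ⟨(inferInstance : Group.IsSolvable H), H53R2.nil_maxC H⟩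

theorem fps_of_vn {Q : Type} [Group Q] (hQ : Group.FG Q) (h : Group.IsVirtuallyNilpotent Q)
    (n : ℕ) : FPs (ZG Q) n (Triv Q) := by
  obtain ⟨H, hn, hi⟩ := h
  have : Group.FG H := Subgroup.fg_of_index_ne_zero H
  have := noeth_of_pc H (pc_of_nil this hn)
  have hfin : Module.Finite (ZG Q) (Triv Q) := by
    refine ⟨⟨{(id (1 : ℤ) : Triv Q)}, ?_⟩⟩
    rw [eq_top_iff]
    intro x _
    let S : Submodule (ZG Q) (Triv Q) := Submodule.span (ZG Q) ({(id (1 : ℤ) : Triv Q)} : Set (Triv Q))
    have h1 : (id (1 : ℤ) : Triv Q) ∈ S := Submodule.subset_span rfl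
    have h2 : (id x : ℤ) • (id (1 : ℤ) : Triv Q) ∈ S := S.toAddSubgroup.zsmul_mem h1 (id x : ℤ)
    have h3 : (id x : ℤ) • (id (1 : ℤ) : Triv Q) = x := by
      change (id x : ℤ) * (1 : ℤ) = (id x : ℤ)
      rw [mul_one]
    rw [h3] at h2
    rw [Finset.coe_singleton]
    exact h2
  exact FPs.of_noetherian n _

end Pool.Agent.W386
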